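import Mathlib

/-!
# Counting quadruples `x a + y b = N`
-/

set_option autoImplicit false

namespace Q279.CD

open Finset

/-- all quadruples `(x, y, a, b)` of positive integers with `x a + y b = N` -/
def Q (N : ℕ) : Finset (ℕ × ℕ × ℕ × ℕ) :=
  (range (N + 1) ×ˢ range (N + 1) ×ˢ range (N + 1) ×ˢ range (N + 1)).filter
    fun q => 0 < q.1 ∧ 0 < q.2.1 ∧ 0 < q.2.2.1 ∧ 0 < q.2.2.2 ∧
      q.1 * q.2.2.1 + q.2.1 * q.2.2.2 = N

lemma mem_Q {N x y a b : ℕ} :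
    (x, y, a, b) ∈ Q N ↔ 0 < x ∧ 0 < y ∧ 0 < a ∧ 0 < b ∧ x * a + y * b = N := by
  unfold Q
  simp only [mem_filter, mem_product, mem_range]
  constructor
  · rintro ⟨_, h⟩; exact h
  · rintro ⟨hx, hy, ha, hb, h⟩
    refine ⟨⟨?_, ?_, ?_, ?_⟩, hx, hy, ha, hb, h⟩ <;> nlinarith

open Classical in
/-- number of quadruples with a property -/
noncomputable def cnt (N : ℕ) (P : ℕ → ℕ → ℕ → ℕ → Prop) : ℕ :=
  ((Q N).filter fun q => P q.1 q.2.1 q.2.2.1 q.2.2.2).card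

lemma cnt_congr {N : ℕ} {P P' : ℕ → ℕ → ℕ → ℕ → Prop}
    (h : ∀ x y a b, 0 < x → 0 < y → 0 < a → 0 < b → x * a + y * b = N →
      (P x y a b ↔ P' x y a b)) : cnt N P = cnt N P' := by
  classical
  unfold cnt
  congr 1
  refine filter_congr ?_
  rintro ⟨x, y, a, b⟩ hq
  rw [mem_Q] at hq
  obtain ⟨hx, hy, ha, hb, e⟩ := hq
  exact h x y a b hx hy ha hb e

lemma cnt_split (N : ℕ) (P R : ℕ → ℕ → ℕ → ℕ → Prop) :
    cnt N P = cnt N (fun x y a b => P x y a b ∧ R x y a b) +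
      cnt N (fun x y a b => P x y a b ∧ ¬ R x y a b) := by
  classical
  unfold cnt
  rw [← card_filter_add_card_filter_not (s := (Q N).filter _)
    (fun q => R q.1 q.2.1 q.2.2.1 q.2.2.2), filter_filter, filter_filter]
  congr!

lemma cnt_zero {N : ℕ} {P : ℕ → ℕ → ℕ → ℕ → Prop}
    (h : ∀ x y a b, 0 < x → 0 < y → 0 < a → 0 < b → x * a + y * b = N → ¬ P x y a b) :
    cnt N P = 0 := by
  classical
  unfold cnt
  rw [card_eq_zero, filter_eq_empty_iff]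
  rintro ⟨x, y, a, b⟩ hq
  rw [mem_Q] at hq
  obtain ⟨hx, hy, ha, hb, e⟩ := hq
  exact h x y a b hx hy ha hb e

/-- the property, as a property of quadruples -/
def In (N : ℕ) (P : ℕ → ℕ → ℕ → ℕ → Prop) (q : ℕ × ℕ × ℕ × ℕ) : Prop :=
  (0 < q.1 ∧ 0 < q.2.1 ∧ 0 < q.2.2.1 ∧ 0 < q.2.2.2 ∧ q.1 * q.2.2.1 + q.2.1 * q.2.2.2 = N) ∧
    P q.1 q.2.1 q.2.2.1 q.2.2.2

lemma mem_filter_Q {N : ℕ} {P : ℕ → ℕ → ℕ → ℕ → Prop} [DecidablePred
    fun q : ℕ × ℕ × ℕ × ℕ => P q.1 q.2.1 q.2.2.1 q.2.2.2] (q : ℕ × ℕ × ℕ × ℕ) :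
    q ∈ (Q N).filter (fun q => P q.1 q.2.1 q.2.2.1 q.2.2.2) ↔ In N P q := by
  obtain ⟨x, y, a, b⟩ := q
  rw [mem_filter, mem_Q]
  rfl

/-- counting by a bijection -/
lemma cnt_eq {N M : ℕ} {P P' : ℕ → ℕ → ℕ → ℕ → Prop}
    (f g : ℕ × ℕ × ℕ × ℕ → ℕ × ℕ × ℕ × ℕ)
    (hf : ∀ x y a b, 0 < x → 0 < y → 0 < a → 0 < b → x * a + y * b = N → P x y a b →
      In M P' (f (x, y, a, b)) ∧ g (f (x, y, a, b)) = (x, y, a, b))
    (hg : ∀ x y a b, 0 < x → 0 < y → 0 < a → 0 < b → x * a + y * b = M → P' x y a b →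
      In N P (g (x, y, a, b)) ∧ f (g (x, y, a, b)) = (x, y, a, b)) :
    cnt N P = cnt M P' := by
  classical
  unfold cnt
  refine card_nbij' f g ?_ ?_ ?_ ?_
  · rintro ⟨x, y, a, b⟩ hq
    rw [mem_coe, mem_filter_Q] at hq ⊢
    obtain ⟨⟨hx, hy, ha, hb, e⟩, hP⟩ := hq
    exact (hf x y a b hx hy ha hb e hP).1
  · rintro ⟨x, y, a, b⟩ hq
    rw [mem_coe, mem_filter_Q] at hq ⊢
    obtain ⟨⟨hx, hy, ha, hb, e⟩, hP⟩ := hq
    exact (hg x y a b hx hy ha hb e hP).1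
  · rintro ⟨x, y, a, b⟩ hq
    rw [mem_coe, mem_filter_Q] at hq
    obtain ⟨⟨hx, hy, ha, hb, e⟩, hP⟩ := hq
    exact (hf x y a b hx hy ha hb e hP).2
  · rintro ⟨x, y, a, b⟩ hq
    rw [mem_coe, mem_filter_Q] at hq
    obtain ⟨⟨hx, hy, ha, hb, e⟩, hP⟩ := hq
    exact (hg x y a b hx hy ha hb e hP).2

/-- counting by a bijection with a finset -/
lemma cnt_eq_card {β : Type*} {N : ℕ} {P : ℕ → ℕ → ℕ → ℕ → Prop} (D : Finset β)
    (f : ℕ × ℕ × ℕ × ℕ → β) (g : β → ℕ × ℕ × ℕ × ℕ)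
    (hf : ∀ x y a b, 0 < x → 0 < y → 0 < a → 0 < b → x * a + y * b = N → P x y a b →
      f (x, y, a, b) ∈ D ∧ g (f (x, y, a, b)) = (x, y, a, b))
    (hg : ∀ t ∈ D, In N P (g t) ∧ f (g t) = t) :
    cnt N P = D.card := by
  classical
  unfold cnt
  refine card_nbij' f g ?_ ?_ ?_ ?_
  · rintro ⟨x, y, a, b⟩ hq
    rw [mem_coe, mem_filter_Q] at hq
    obtain ⟨⟨hx, hy, ha, hb, e⟩, hP⟩ := hq
    exact (hf x y a b hx hy ha hb e hP).1
  · rintro t ht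
    rw [mem_coe, mem_filter_Q]
    exact (hg t ht).1
  · rintro ⟨x, y, a, b⟩ hq
    rw [mem_coe, mem_filter_Q] at hq
    obtain ⟨⟨hx, hy, ha, hb, e⟩, hP⟩ := hq
    exact (hf x y a b hx hy ha hb e hP).2
  · rintro t ht
    exact (hg t ht).2

/-- an involution preserves the parity of the number of fixed points -/
lemma par {α : Type*} [DecidableEq α] (s : Finset α) (f : α → α) (h1 : ∀ q ∈ s, f q ∈ s)
    (h2 : ∀ q ∈ s, f (f q) = q) : s.card % 2 = (s.filter (fun q => f q = q)).card % 2 := by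
  have h3 : ((s.filter (fun q => ¬ f q = q)).card : ZMod 2) = 0 := by
    rw [card_eq_sum_ones, Nat.cast_sum]
    refine sum_involution (fun q _ => f q) ?_ ?_ ?_ ?_
    · intro q _; simp; rfl
    · intro q hq _
      exact (mem_filter.1 hq).2
    · intro q hq
      rw [mem_filter] at hq ⊢
      refine ⟨h1 q hq.1, fun h => hq.2 ?_⟩
      rw [h2 q hq.1] at h
      exact h.symm
    · intro q hq
      exact h2 q (mem_filter.1 hq).1
  have h4 : (s.filter (fun q => ¬ f q = q)).card % 2 = 0 := by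
    rw [ZMod.natCast_eq_zero_iff] at h3; omega
  have h5 := card_filter_add_card_filter_not (s := s) (fun q => f q = q)
  omega

lemma cnt_par {N : ℕ} {P : ℕ → ℕ → ℕ → ℕ → Prop} (f : ℕ × ℕ × ℕ × ℕ → ℕ × ℕ × ℕ × ℕ)
    (hf : ∀ x y a b, 0 < x → 0 < y → 0 < a → 0 < b → x * a + y * b = N → P x y a b →
      In N P (f (x, y, a, b)) ∧ f (f (x, y, a, b)) = (x, y, a, b)) :
    cnt N P % 2 = cnt N (fun x y a b => P x y a b ∧ f (x, y, a, b) = (x, y, a, b)) % 2 := by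
  classical
  unfold cnt
  rw [par _ f ?_ ?_, filter_filter]
  · congr!
  · rintro ⟨x, y, a, b⟩ hq
    rw [mem_filter_Q] at hq ⊢
    obtain ⟨⟨hx, hy, ha, hb, e⟩, hP⟩ := hq
    exact (hf x y a b hx hy ha hb e hP).1
  · rintro ⟨x, y, a, b⟩ hq
    rw [mem_filter_Q] at hq
    obtain ⟨⟨hx, hy, ha, hb, e⟩, hP⟩ := hq
    exact (hf x y a b hx hy ha hb e hP).2

end Q279.CD
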