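import Pool.Agent.Q279.CD.Zag

/-!
# The five families
-/

set_option autoImplicit false

namespace Q279.CD

open Finset

lemma sg_seven {n : ℕ} (hn : n % 8 = 7) : sg n % 8 = 0 := by
  have h : ((sg n : ℕ) : ZMod 8) = 0 := by
    unfold sg
    rw [Nat.cast_sum]
    have key : ∀ a b : ZMod 8, a * b = 7 → a + b = 0 ∧ a ≠ b := by decide
    have hc : ∀ d ∈ n.divisors, ((d : ℕ) : ZMod 8) * ((n / d : ℕ) : ZMod 8) = 7 := by
      intro d hd
      rw [← Nat.cast_mul, Nat.mul_div_cancel' (Nat.mem_divisors.1 hd).1, ← Nat.div_add_mod n 8, hn]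
      push_cast
      rw [show (8 : ZMod 8) = 0 from rfl, zero_mul, zero_add]
    refine sum_involution (fun d _ => n / d) ?_ ?_ ?_ ?_
    · intro d hd; exact (key _ _ (hc d hd)).1
    · intro d hd _ h
      exact (key _ _ (hc d hd)).2 (by rw [h])
    · intro d hd
      rw [Nat.mem_divisors] at hd ⊢
      exact ⟨Nat.div_dvd_of_dvd hd.1, hd.2⟩
    · intro d hd
      rw [Nat.mem_divisors] at hd
      exact Nat.div_div_self hd.1 hd.2
  rw [ZMod.natCast_eq_zero_iff] at h; omega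

lemma card_even {m : ℕ} (hm : ∀ d, d * d ≠ m) : m.divisors.card % 2 = 0 := by
  rw [par m.divisors (fun d => m / d)]
  · rw [filter_eq_empty_iff.2]
    · simp
    · intro d hd h
      rw [Nat.mem_divisors] at hd
      have := Nat.mul_div_cancel' hd.1
      rw [h] at this
      exact hm d this
  · intro d hd
    rw [Nat.mem_divisors] at hd ⊢
    exact ⟨Nat.div_dvd_of_dvd hd.1, hd.2⟩
  · intro d hd
    rw [Nat.mem_divisors] at hd
    exact Nat.div_div_self hd.1 hd.2

lemma sg_even {m : ℕ} (h2 : m % 2 = 1) (hm : ∀ d, d * d ≠ m) : sg m % 2 = 0 := by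
  have h1 := card_even hm
  have h : ((sg m : ℕ) : ZMod 2) = ((m.divisors.card : ℕ) : ZMod 2) := by
    unfold sg
    rw [Nat.cast_sum, card_eq_sum_ones, Nat.cast_sum]
    refine sum_congr rfl fun d hd => ?_
    rw [Nat.mem_divisors] at hd
    have h3 : d % 2 = 1 := by
      obtain ⟨s, hs⟩ := hd.1
      have h4 := Nat.mul_mod d s 2
      rcases mod2_cases d with h5 | h5
      · rw [h5] at h4; simp at h4; omega
      · exact h5
    rw [ZMod.natCast_eq_natCast_iff']; omega
  rw [ZMod.natCast_eq_natCast_iff'] at h; omega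

lemma sg_mul {q m : ℕ} (hq : q.Prime) (hm : ¬ q ∣ m) : sg (q * m) = (q + 1) * sg m ∧
    (q * m).divisors.card = 2 * m.divisors.card := by
  have hc : Nat.Coprime q m := (Nat.Prime.coprime_iff_not_dvd hq).2 hm
  unfold sg
  rw [hc.sum_divisors_mul, hc.card_divisors_mul, hq.sum_divisors, Nat.Prime.divisors hq,
    card_pair hq.one_lt.ne]
  refine ⟨by ring, rfl⟩

/-- `n = 3 m` -/
lemma sq3 {m : ℕ} (hm : ¬ 3 ∣ m) (u v : ℕ) : u * u + v * v ≠ 2 * (3 * m) := by
  intro h
  have key : ∀ a b : ZMod 3, a * a + b * b = 0 → a = 0 ∧ b = 0 := by decide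
  have h1 := congrArg (fun t : ℕ => (t : ZMod 3)) h
  push_cast at h1
  rw [show (3 : ZMod 3) = 0 from rfl, zero_mul, mul_zero] at h1
  obtain ⟨h2, h3⟩ := key _ _ h1
  rw [ZMod.natCast_eq_zero_iff] at h2 h3
  obtain ⟨s, rfl⟩ := h2
  obtain ⟨t, rfl⟩ := h3
  apply hm
  have : 3 * (s * s + t * t) = 2 * m := by
    have : 3 * (3 * (s * s + t * t)) = 3 * (2 * m) := by linarith [h]
    omega
  omega

/-- `n = 7 m` -/
lemma sq7 {m : ℕ} (hm : ¬ 7 ∣ m) (u v : ℕ) : u * u + v * v ≠ 2 * (7 * m) := by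
  intro h
  have key : ∀ a b : ZMod 7, a * a + b * b = 0 → a = 0 ∧ b = 0 := by decide
  have h1 := congrArg (fun t : ℕ => (t : ZMod 7)) h
  push_cast at h1
  rw [show (7 : ZMod 7) = 0 from rfl, zero_mul, mul_zero] at h1
  obtain ⟨h2, h3⟩ := key _ _ h1
  rw [ZMod.natCast_eq_zero_iff] at h2 h3
  obtain ⟨s, rfl⟩ := h2
  obtain ⟨t, rfl⟩ := h3
  apply hm
  have : 7 * (s * s + t * t) = 2 * m := by
    have : 7 * (7 * (s * s + t * t)) = 7 * (2 * m) := by linarith [h]
    omega
  omega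

/-- `n = 8 k + 7` -/
lemma sq8 {n : ℕ} (hn : n % 8 = 7) (u v : ℕ) : u * u + v * v ≠ 2 * n := by
  intro h
  have key : ∀ a b : ZMod 16, a * a + b * b ≠ 14 := by decide
  apply key u v
  have h1 := congrArg (fun t : ℕ => (t : ZMod 16)) h
  push_cast at h1
  rw [h1, ← Nat.div_add_mod n 8, hn]
  push_cast
  rw [mul_add, ← mul_assoc, show (2 * 8 : ZMod 16) = 0 from rfl, zero_mul, zero_add]
  rfl

lemma R8 {n : ℕ} (hn : n % 8 = 7) : R n = 0 := by
  refine cnt_zero fun x y a b _ _ _ _ e h => ?_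
  obtain ⟨rfl, rfl⟩ := h
  have key : ∀ a b : ZMod 8, a * (2 * a) + b * b ≠ 7 := by decide
  apply key x y
  have h1 := congrArg (fun t : ℕ => (t : ZMod 8)) e
  push_cast at h1
  rw [h1, ← Nat.div_add_mod n 8, hn]
  push_cast
  rw [show (8 : ZMod 8) = 0 from rfl, zero_mul, zero_add]

lemma R7 {m : ℕ} (hm : ¬ 7 ∣ m) : R (7 * m) = 0 := by
  refine cnt_zero fun x y a b _ _ _ _ e h => ?_
  obtain ⟨rfl, rfl⟩ := h
  have key : ∀ a b : ZMod 7, a * (2 * a) + b * b = 0 → a = 0 ∧ b = 0 := by decide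
  have h1 := congrArg (fun t : ℕ => (t : ZMod 7)) e
  push_cast at h1
  rw [show (7 : ZMod 7) = 0 from rfl, zero_mul] at h1
  obtain ⟨h2, h3⟩ := key _ _ h1
  rw [ZMod.natCast_eq_zero_iff] at h2 h3
  obtain ⟨s, rfl⟩ := h2
  obtain ⟨t, rfl⟩ := h3
  apply hm
  have : 7 * (s * (2 * s) + t * t) = m := by
    have : 7 * (7 * (s * (2 * s) + t * t)) = 7 * m := by linarith [e]
    omega
  omega

/-- the involution on the representations `2 v² + u² = 3 m` -/
def ph (q : ℕ × ℕ × ℕ × ℕ) : ℕ × ℕ × ℕ × ℕ :=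
  if q.2.1 % 3 = q.1 % 3 then
    ((2 * q.2.1 + q.1) / 3, ((4 * q.1 - q.2.1) + (q.2.1 - 4 * q.1)) / 3,
      2 * ((2 * q.2.1 + q.1) / 3), ((4 * q.1 - q.2.1) + (q.2.1 - 4 * q.1)) / 3)
  else (((2 * q.2.1 - q.1) + (q.1 - 2 * q.2.1)) / 3, (q.2.1 + 4 * q.1) / 3,
      2 * (((2 * q.2.1 - q.1) + (q.1 - 2 * q.2.1)) / 3), (q.2.1 + 4 * q.1) / 3)

lemma ph1 {x y a b s t : ℕ} (h : y % 3 = x % 3) (hs : 3 * s = 2 * y + x)
    (ht : 3 * t = (4 * x - y) + (y - 4 * x)) : ph (x, y, a, b) = (s, t, 2 * s, t) := by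
  unfold ph
  rw [if_pos h]
  simp only [Prod.mk.injEq]
  omega

lemma ph2 {x y a b s t : ℕ} (h : ¬ y % 3 = x % 3) (hs : 3 * s = (2 * y - x) + (x - 2 * y))
    (ht : 3 * t = y + 4 * x) : ph (x, y, a, b) = (s, t, 2 * s, t) := by
  unfold ph
  rw [if_neg h]
  simp only [Prod.mk.injEq]
  omega

lemma nz3 {m x y : ℕ} (hm : ¬ 3 ∣ m) (e : x * (2 * x) + y * y = 3 * m) :
    ¬ (x % 3 = 0 ∨ y % 3 = 0) := by
  intro h5
  have key : ∀ a b : ZMod 3, a * (2 * a) + b * b = 0 → a = 0 ∨ b = 0 → a = 0 ∧ b = 0 := by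
    decide
  have h1 := congrArg (fun t : ℕ => (t : ZMod 3)) e
  push_cast at h1
  rw [show (3 : ZMod 3) = 0 from rfl, zero_mul] at h1
  apply hm
  obtain ⟨h6, h7⟩ := key _ _ h1 (by
    rw [ZMod.natCast_eq_zero_iff, ZMod.natCast_eq_zero_iff]; omega)
  rw [ZMod.natCast_eq_zero_iff] at h6 h7
  obtain ⟨s, rfl⟩ := h6
  obtain ⟨t, rfl⟩ := h7
  have : 3 * (s * (2 * s) + t * t) = m := by
    have : 3 * (3 * (s * (2 * s) + t * t)) = 3 * m := by linarith [e]
    omega
  omega

lemma R3 {m : ℕ} (hm : ¬ 3 ∣ m) (h2 : m % 2 = 1) (hsq : ∀ d, d * d ≠ m) : R (3 * m) % 2 = 0 := by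
  rw [R, cnt_par ph]
  · rw [cnt_zero]
    rintro x y a b hx hy _ _ e ⟨⟨rfl, rfl⟩, hp⟩
    by_cases c : y % 3 = x % 3
    · rw [ph1 c (s := (2 * y + x) / 3) (t := ((4 * x - y) + (y - 4 * x)) / 3) (by omega)
        (by omega)] at hp
      simp only [Prod.mk.injEq] at hp
      have hxy : x = y := by omega
      subst hxy
      apply hsq x
      have : 3 * (x * x) = 3 * m := by rw [← e]; ring
      omega
    · have hnz := nz3 hm e
      have h3 : (x + y) % 3 = 0 := by omega
      rw [ph2 c (s := ((2 * y - x) + (x - 2 * y)) / 3) (t := (y + 4 * x) / 3) (by omega)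
        (by omega)] at hp
      simp only [Prod.mk.injEq] at hp
      have hxy : y = 2 * x := by omega
      subst hxy
      have : 3 * (2 * (x * x)) = 3 * m := by rw [← e]; ring
      omega
  · rintro x y a b hx hy _ _ e ⟨rfl, rfl⟩
    have hnz := nz3 hm e
    by_cases c : y % 3 = x % 3
    · obtain ⟨s, hs⟩ : ∃ s, 3 * s = 2 * y + x := ⟨(2 * y + x) / 3, by omega⟩
      obtain ⟨t, ht⟩ : ∃ t, 3 * t = (4 * x - y) + (y - 4 * x) :=
        ⟨((4 * x - y) + (y - 4 * x)) / 3, by omega⟩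
      rw [ph1 c hs ht]
      have hyx : y ≠ 4 * x := by
        rintro rfl
        have : 3 * (6 * (x * x)) = 3 * m := by rw [← e]; ring
        omega
      have h9' : s * (2 * s) + t * t = 3 * m := by
        have h9 : 9 * (s * (2 * s) + t * t) = 9 * (3 * m) := by
          rw [← e]
          rcases le_total y (4 * x) with h | h
          · obtain ⟨k, hk⟩ := Nat.exists_eq_add_of_le h
            have hk' : 3 * t = k := by omega
            zify at *
            have : (k : ℤ) = 4 * x - y := by linarith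
            rw [this] at hk'
            linear_combination 2 * (3 * (s : ℤ) + (2 * y + x)) * hs +
              (3 * (t : ℤ) + (4 * x - y)) * hk'
          · obtain ⟨k, hk⟩ := Nat.exists_eq_add_of_le h
            have hk' : 3 * t = k := by omega
            zify at *
            have : (k : ℤ) = y - 4 * x := by linarith
            rw [this] at hk'
            linear_combination 2 * (3 * (s : ℤ) + (2 * y + x)) * hs +
              (3 * (t : ℤ) + (y - 4 * x)) * hk'
        omega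
      have hnz2 := nz3 hm h9'
      refine ⟨⟨⟨?_, ?_, ?_, ?_, h9'⟩, rfl, rfl⟩, ?_⟩
      · simp only; omega
      · simp only; omega
      · simp only; omega
      · simp only; omega
      · rcases le_total y (4 * x) with h | h
        · rw [ph1 (s := x) (t := y) (by omega) (by omega) (by omega)]
        · rw [ph2 (s := x) (t := y) (by omega) (by omega) (by omega)]
    · have h3 : (x + y) % 3 = 0 := by omega
      obtain ⟨s, hs⟩ : ∃ s, 3 * s = (2 * y - x) + (x - 2 * y) :=
        ⟨((2 * y - x) + (x - 2 * y)) / 3, by omega⟩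
      obtain ⟨t, ht⟩ : ∃ t, 3 * t = y + 4 * x := ⟨(y + 4 * x) / 3, by omega⟩
      rw [ph2 c hs ht]
      have hyx : x ≠ 2 * y := by
        rintro rfl
        apply hm
        exact ⟨y * y, by
          have : 3 * (3 * (y * y)) = 3 * m := by rw [← e]; ring
          omega⟩
      have h9' : s * (2 * s) + t * t = 3 * m := by
        have h9 : 9 * (s * (2 * s) + t * t) = 9 * (3 * m) := by
          rw [← e]
          rcases le_total x (2 * y) with h | h
          · obtain ⟨k, hk⟩ := Nat.exists_eq_add_of_le h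
            have hk' : 3 * s = k := by omega
            zify at *
            have : (k : ℤ) = 2 * y - x := by linarith
            rw [this] at hk'
            linear_combination 2 * (3 * (s : ℤ) + (2 * y - x)) * hk' +
              (3 * (t : ℤ) + (y + 4 * x)) * ht
          · obtain ⟨k, hk⟩ := Nat.exists_eq_add_of_le h
            have hk' : 3 * s = k := by omega
            zify at *
            have : (k : ℤ) = x - 2 * y := by linarith
            rw [this] at hk'
            linear_combination 2 * (3 * (s : ℤ) + (x - 2 * y)) * hk' +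
              (3 * (t : ℤ) + (y + 4 * x)) * ht
        omega
      have hnz2 := nz3 hm h9'
      refine ⟨⟨⟨?_, ?_, ?_, ?_, h9'⟩, rfl, rfl⟩, ?_⟩
      · simp only; omega
      · simp only; omega
      · simp only; omega
      · simp only; omega
      · rcases le_total x (2 * y) with h | h
        · rw [ph2 (s := x) (t := y) (by omega) (by omega) (by omega)]
        · rw [ph1 (s := x) (t := y) (by omega) (by omega) (by omega)]

/-- first family -/
theorem fam8 {n : ℕ} (hn : n % 8 = 7) : nu (2 * n) % 4 = 0 ∧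
    cnt (2 * n) (fun x y _ b => y < x ∧ (x + y + b) % 2 = 1) % 4 = 0 := by
  have h := main (n := n) (by omega) (fun u v _ _ => sq8 hn u v) (by rw [R8 hn]) (sg_seven hn)
  exact ⟨h.1, h.2.1⟩

/-- the families with `n = 3 m` -/
theorem fam3 {m : ℕ} (hm : ¬ 3 ∣ m) (h2 : m % 2 = 1) (hsq : ∀ d, d * d ≠ m) :
    nu (2 * (3 * m)) % 4 = 0 ∧
    cnt (2 * (3 * m)) (fun x y _ b => y < x ∧ (x + y + b) % 2 = 1) % 4 = 0 ∧
    cnt (2 * (3 * m)) (fun x y a b => y < x ∧ (x + a + b) % 2 = 1) % 4 = 0 := by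
  obtain ⟨h3, h4⟩ := sg_mul Nat.prime_three hm
  have h5 := sg_even h2 hsq
  have h6 := card_even hsq
  have h := main (n := 3 * m) (by omega) (fun u v _ _ => sq3 hm u v) (R3 hm h2 hsq) (by omega)
  exact ⟨h.1, h.2.1, h.2.2 (by omega)⟩

/-- the family with `n = 7 m` -/
theorem fam7 {m : ℕ} (hm : ¬ 7 ∣ m) (h2 : m % 2 = 1) (hsq : ∀ d, d * d ≠ m) :
    nu (2 * (7 * m)) % 4 = 0 ∧
    cnt (2 * (7 * m)) (fun x y _ b => y < x ∧ (x + y + b) % 2 = 1) % 4 = 0 ∧
    cnt (2 * (7 * m)) (fun x y a b => y < x ∧ (x + a + b) % 2 = 1) % 4 = 0 := by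
  obtain ⟨h3, h4⟩ := sg_mul (show Nat.Prime 7 by norm_num) hm
  have h6 := card_even hsq
  have h := main (n := 7 * m) (by omega) (fun u v _ _ => sq7 hm u v) (by rw [R7 hm]) (by omega)
  exact ⟨h.1, h.2.1, h.2.2 (by omega)⟩

end Q279.CD
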