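import Pool.Agent.Q279.CD.Fam

/-!
# `ν_k(n)` for actual partitions
-/

set_option autoImplicit false

namespace Q279.CD

open Finset

/-- `ν_k(n)`: the number of partitions of `n` with exactly `k` distinct part sizes -/
def nuk (k n : ℕ) : ℕ :=
  (univ.filter fun p : Nat.Partition n => p.parts.toFinset.card = k).card

/-- one part size -/
lemma nuk_one {n : ℕ} (hn : n ≠ 0) : nuk 1 n = n.divisors.card := by
  unfold nuk
  symm
  refine card_bij (fun x hx => ⟨Multiset.replicate (n / x) x, ?_, ?_⟩) ?_ ?_ ?_
  · intro i hi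
    rw [Multiset.eq_of_mem_replicate hi]
    exact Nat.pos_of_mem_divisors hx
  · rw [Multiset.sum_replicate, smul_eq_mul]
    exact Nat.div_mul_cancel (Nat.mem_divisors.1 hx).1
  · intro x hx
    have h := Nat.mem_divisors.1 hx
    have h0 : 0 < n / x := Nat.div_pos (Nat.le_of_dvd (by omega) h.1)
      (Nat.pos_of_dvd_of_pos h.1 (by omega))
    rw [mem_filter]
    refine ⟨mem_univ _, ?_⟩
    rw [Multiset.toFinset_replicate, if_neg (by omega), card_singleton]
  · intro x hx y hy h
    have h1 := congrArg Nat.Partition.parts h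
    simp only at h1
    have h2 := Nat.mem_divisors.1 hx
    have h0 : 0 < n / x := Nat.div_pos (Nat.le_of_dvd (by omega) h2.1)
      (Nat.pos_of_dvd_of_pos h2.1 (by omega))
    have h3 : x ∈ Multiset.replicate (n / y) y := by
      rw [← h1, Multiset.mem_replicate]
      exact ⟨by omega, rfl⟩
    exact Multiset.eq_of_mem_replicate h3
  · intro p hp
    rw [mem_filter] at hp
    obtain ⟨x, hx⟩ := card_eq_one.1 hp.2
    have h1 : p.parts = Multiset.replicate (p.parts.card) x := by
      rw [Multiset.eq_replicate]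
      refine ⟨rfl, fun b hb => ?_⟩
      have : b ∈ p.parts.toFinset := Multiset.mem_toFinset.2 hb
      rw [hx, mem_singleton] at this
      exact this
    have h2 : p.parts.card * x = n := by
      have := p.parts_sum
      rw [h1, Multiset.sum_replicate, smul_eq_mul] at this
      exact this
    have hx0 : 0 < x := by
      rcases Nat.eq_zero_or_pos x with h | h
      · rw [h, mul_zero] at h2; exact absurd h2.symm hn
      · exact h
    refine ⟨x, Nat.mem_divisors.2 ⟨⟨_, by rw [mul_comm] at h2; exact h2.symm⟩, hn⟩, ?_⟩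
    ext1
    simp only
    have h3 : n / x = p.parts.card := Nat.div_eq_of_eq_mul_left hx0 h2.symm
    rw [h3, ← h1]

/-- two part sizes -/
lemma nuk_two (n : ℕ) : nuk 2 n = nu n := by
  unfold nuk nu
  refine (cnt_eq_card _ (fun q => q) (fun q => q) ?_ ?_ : cnt n _ =
    ((Q n).filter fun q => q.2.1 < q.1).card).trans ?_ |>.symm
  · intro x y a b hx hy ha hb e h
    rw [mem_filter, mem_Q]
    exact ⟨⟨⟨hx, hy, ha, hb, e⟩, h⟩, rfl⟩
  · rintro ⟨x, y, a, b⟩ h
    rw [mem_filter, mem_Q] at h
    exact ⟨⟨h.1, h.2⟩, rfl⟩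
  refine card_bij (fun q hq => ⟨Multiset.replicate q.2.2.1 q.1 + Multiset.replicate q.2.2.2 q.2.1,
    ?_, ?_⟩) ?_ ?_ ?_
  · obtain ⟨x, y, a, b⟩ := q
    rw [mem_filter, mem_Q] at hq
    intro i hi
    rw [Multiset.mem_add] at hi
    rcases hi with hi | hi <;> rw [Multiset.eq_of_mem_replicate hi]
    · exact hq.1.1
    · exact hq.1.2.1
  · obtain ⟨x, y, a, b⟩ := q
    rw [mem_filter, mem_Q] at hq
    rw [Multiset.sum_add, Multiset.sum_replicate, Multiset.sum_replicate, smul_eq_mul,
      smul_eq_mul, mul_comm a x, mul_comm b y]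
    exact hq.1.2.2.2.2
  · rintro ⟨x, y, a, b⟩ hq
    rw [mem_filter, mem_Q] at hq
    obtain ⟨⟨hx, hy, ha, hb, e⟩, h⟩ := hq
    rw [mem_filter]
    refine ⟨mem_univ _, ?_⟩
    simp only at h
    rw [Multiset.toFinset_add, Multiset.toFinset_replicate, Multiset.toFinset_replicate,
      if_neg (by simp only; omega), if_neg (by simp only; omega), ← insert_eq, card_pair h.ne']
  · rintro ⟨x, y, a, b⟩ hq ⟨x', y', a', b'⟩ hq' heq
    rw [mem_filter, mem_Q] at hq hq'
    obtain ⟨⟨hx, hy, ha, hb, e⟩, h⟩ := hq
    obtain ⟨⟨hx', hy', ha', hb', e'⟩, h'⟩ := hq'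
    have h1 := congrArg Nat.Partition.parts heq
    simp only at h1 h h'
    have m1 : x ∈ Multiset.replicate a' x' + Multiset.replicate b' y' := by
      rw [← h1, Multiset.mem_add, Multiset.mem_replicate]; left; exact ⟨by omega, rfl⟩
    have m2 : y ∈ Multiset.replicate a' x' + Multiset.replicate b' y' := by
      rw [← h1, Multiset.mem_add, Multiset.mem_replicate, Multiset.mem_replicate]
      right; exact ⟨by omega, rfl⟩
    rw [Multiset.mem_add, Multiset.mem_replicate, Multiset.mem_replicate] at m1 m2
    have hxx : x = x' := by omega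
    have hyy : y = y' := by omega
    subst hxx; subst hyy
    have c1 := congrArg (Multiset.count x) h1
    have c2 := congrArg (Multiset.count y) h1
    simp only [Multiset.count_add, Multiset.count_replicate] at c1 c2
    rw [if_pos trivial, if_neg (by omega), if_pos trivial, if_neg (by omega)] at c1
    rw [if_neg (by omega), if_pos trivial, if_neg (by omega), if_pos trivial] at c2
    simp only [Prod.mk.injEq, true_and]
    omega
  · intro p hp
    rw [mem_filter] at hp
    obtain ⟨x, y, hxy, h2⟩ := card_eq_two.1 hp.2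
    obtain ⟨x, y, hlt, h2⟩ : ∃ x y, y < x ∧ p.parts.toFinset = {x, y} := by
      rcases lt_or_gt_of_ne hxy with h | h
      · exact ⟨y, x, h, by rw [h2, pair_comm]⟩
      · exact ⟨x, y, h, h2⟩
    have hmem : ∀ z, z ∈ p.parts ↔ z = x ∨ z = y := by
      intro z
      rw [← Multiset.mem_toFinset, h2, mem_insert, mem_singleton]
    have h3 : p.parts = Multiset.replicate (p.parts.count x) x +
        Multiset.replicate (p.parts.count y) y := by
      ext z
      rw [Multiset.count_add, Multiset.count_replicate, Multiset.count_replicate]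
      by_cases hz : z ∈ p.parts
      · rcases (hmem z).1 hz with rfl | rfl
        · rw [if_pos rfl, if_neg (by omega)]; omega
        · rw [if_neg (by omega), if_pos rfl]; omega
      · have hz' := hz
        rw [hmem] at hz'
        push Not at hz'
        rw [Multiset.count_eq_zero_of_notMem hz, if_neg (fun h => hz'.1 h.symm),
          if_neg (fun h => hz'.2 h.symm)]
    have hx0 : 0 < x := p.parts_pos ((hmem x).2 (Or.inl rfl))
    have hy0 : 0 < y := p.parts_pos ((hmem y).2 (Or.inr rfl))
    have ha0 : 0 < p.parts.count x := Multiset.count_pos.2 ((hmem x).2 (Or.inl rfl))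
    have hb0 : 0 < p.parts.count y := Multiset.count_pos.2 ((hmem y).2 (Or.inr rfl))
    have hs : x * p.parts.count x + y * p.parts.count y = n := by
      have := p.parts_sum
      rw [h3, Multiset.sum_add, Multiset.sum_replicate, Multiset.sum_replicate, smul_eq_mul,
        smul_eq_mul] at this
      rw [mul_comm x, mul_comm y]; exact this
    refine ⟨(x, y, p.parts.count x, p.parts.count y), ?_, ?_⟩
    · rw [mem_filter, mem_Q]
      exact ⟨⟨hx0, hy0, ha0, hb0, hs⟩, hlt⟩
    · ext1
      exact h3.symm

end Q279.CD
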