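import Pool.Agent.Q279.CD.Nu
import Pool.Agent.Q279.QS.Eta

/-!
# Overpartitions modulo 16
-/

set_option autoImplicit false

namespace Q279.CD

open Finset PowerSeries Q279.QS
open scoped PowerSeries.WithPiTopology

/-- overpartition generating function -/
noncomputable def OP : ℤ⟦X⟧ := Nat.Partition.genFun (fun _ _ => (2 : ℤ))

lemma coeff_OP (n : ℕ) :
    coeff n OP = ∑ p : Nat.Partition n, 2 ^ p.parts.toFinset.card := by
  unfold OP
  rw [Nat.Partition.coeff_genFun]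
  refine sum_congr rfl fun p _ => ?_
  rw [Finsupp.prod, prod_const, Multiset.toFinsupp_support]

/-- `∏ (1 + X^{i+1})` -/
noncomputable def PP : ℤ⟦X⟧ := ∏' i : ℕ, (1 + X ^ (i + 1))

lemma mult_PP : Multipliable fun i : ℕ => (1 + X ^ (i + 1) : ℤ⟦X⟧) :=
  multipliable_of_dvd fun i => ⟨1, by ring⟩

lemma mult_e1 : Multipliable fun i : ℕ => (1 - X ^ (i + 1) : ℤ⟦X⟧) := by
  refine (mult_eul 1 le_rfl).congr fun i => ?_
  rw [one_mul]

lemma eul_one : eul 1 = ∏' i : ℕ, (1 - X ^ (i + 1) : ℤ⟦X⟧) := by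
  unfold eul
  refine tprod_congr fun i => ?_
  rw [one_mul]

lemma PP_mul : PP * eul 1 = eul 2 := by
  rw [eul_one, PP, ← mult_PP.tprod_mul mult_e1]
  unfold eul
  refine tprod_congr fun i => ?_
  rw [mul_comm 2 (i + 1), pow_mul]
  ring

lemma factor (i : ℕ) :
    (1 + ∑' j, (2 : ℤ) • (X : ℤ⟦X⟧) ^ ((i + 1) * (j + 1))) * (1 - X ^ (i + 1)) =
      1 + X ^ (i + 1) := by
  set y : ℤ⟦X⟧ := X ^ (i + 1) with hy
  have hs1 := Nat.Partition.summable_genFun_term (fun _ _ => (1 : ℤ)) i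
  have h1 : ∀ j : ℕ, (X : ℤ⟦X⟧) ^ ((i + 1) * (j + 1)) = y ^ (j + 1) := fun j => by
    rw [hy, ← pow_mul]
  simp only [smul_eq_C_mul, map_one, one_mul, h1] at hs1
  have hs : Summable fun j => y ^ j := (summable_nat_add_iff 1).1 hs1
  simp only [h1]
  have h2 : ∑' j, (2 : ℤ) • y ^ (j + 1) = 2 * (∑' j, y ^ j - 1) := by
    rw [hs.tsum_eq_zero_add, pow_zero, add_sub_cancel_left]
    have h3 : ∀ j : ℕ, (2 : ℤ) • y ^ (j + 1) = 2 * y ^ (j + 1) := fun j => by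
      rw [zsmul_eq_mul]; norm_num
    simp only [h3]
    exact hs1.tsum_mul_left 2
  rw [h2]
  have h4 := hs.tsum_pow_mul_one_sub
  linear_combination 2 * h4

lemma OP_mul : OP * eul 1 = PP := by
  rw [eul_one, OP, Nat.Partition.genFun_eq_tprod, PP]
  have h := (Nat.Partition.multipliable_genFun (fun _ _ => (2 : ℤ))).tprod_mul mult_e1
  exact h.symm.trans (tprod_congr factor)

/-- `∑ (-1)^n X^{n²}` -/
noncomputable def th0 : ℤ⟦X⟧ := TS (fun n : ℤ => n ^ 2) (fun n => (-1 : ℤ) ^ n.natAbs)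

lemma OP_th : OP * th0 = 1 := by
  have h1 := OP_mul
  have h2 := PP_mul
  have h3 : eul 1 ^ 2 = eul 2 * th0 := gauss_phi
  have h4 : eul 2 * (OP * th0) = eul 2 * 1 := by
    linear_combination -OP * h3 + eul 1 * h1 + h2
  exact mul_left_cancel₀ (eul_ne_zero (by norm_num)) h4

lemma FF_sq : FF (fun n : ℤ => n ^ 2) := by
  intro m
  refine (Set.finite_Icc (-|m|) |m|).subset fun n hn => ?_
  have hn' : n ^ 2 = m := hn
  have h1 : |n| ≤ |m| := by
    rw [← hn', abs_pow, pow_two]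
    rcases eq_or_ne n 0 with rfl | h
    · simp
    · nlinarith [Int.one_le_abs h]
  exact abs_le.1 h1

lemma coeff_th0_sq (k : ℕ) (hk : 0 < k) : coeff (k * k) th0 = 2 * (-1) ^ k := by
  unfold th0
  rw [coeff_TS' FF_sq]
  have h1 : (FF_sq ((k * k : ℕ) : ℤ)).toFinset = {(k : ℤ), -(k : ℤ)} := by
    ext n
    rw [Set.Finite.mem_toFinset, mem_insert, mem_singleton]
    show n ^ 2 = _ ↔ _
    push_cast
    rw [← pow_two, sq_eq_sq_iff_eq_or_eq_neg]
  rw [h1, sum_pair (by omega)]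
  simp
  ring

lemma coeff_th0_zero : coeff 0 th0 = 1 := by
  unfold th0
  rw [coeff_TS' FF_sq]
  have h1 : (FF_sq ((0 : ℕ) : ℤ)).toFinset = {0} := by
    ext n
    rw [Set.Finite.mem_toFinset, mem_singleton]
    show n ^ 2 = _ ↔ _
    simp
  rw [h1, sum_singleton]
  simp

lemma coeff_th0_non (m : ℕ) (h : ∀ k, k * k ≠ m) : coeff m th0 = 0 := by
  unfold th0
  refine coeff_TS_of_zero fun i hi => ?_
  exfalso
  apply h i.natAbs
  have : ((i.natAbs * i.natAbs : ℕ) : ℤ) = m := by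
    rw [Nat.cast_mul, Int.natAbs_mul_self', ← hi]; ring
  exact_mod_cast this

/-- half of `th0 - 1` -/
noncomputable def Sq : ℤ⟦X⟧ := mk fun m => if m = 0 then 0 else coeff m th0 / 2

lemma th0_eq : th0 = 1 + 2 * Sq := by
  ext m
  rw [map_add, coeff_one, show (2 : ℤ⟦X⟧) = C 2 from rfl, coeff_C_mul, Sq, coeff_mk]
  split_ifs with h
  · rw [h, coeff_th0_zero]; norm_num
  · by_cases h2 : ∃ k, k * k = m
    · obtain ⟨k, rfl⟩ := h2
      have hk : 0 < k := Nat.pos_of_ne_zero (by rintro rfl; simp at h)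
      rw [coeff_th0_sq k hk, Int.mul_ediv_cancel_left _ two_ne_zero]; ring
    · push Not at h2
      rw [coeff_th0_non m h2]; norm_num

lemma Sq_supp (m : ℕ) (h : coeff m Sq ≠ 0) : ∃ k, 0 < k ∧ k * k = m := by
  rw [Sq, coeff_mk] at h
  have hm : m ≠ 0 := by rintro rfl; simp at h
  rw [if_neg hm] at h
  by_contra h2
  apply h
  rw [coeff_th0_non m]
  · norm_num
  · intro k hk
    apply h2
    exact ⟨k, Nat.pos_of_ne_zero (by rintro rfl; simp at hk; exact hm hk.symm), hk⟩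

lemma Sq2 {N : ℕ} (h : ∀ u v, 0 < u → 0 < v → u * u + v * v ≠ N) : coeff N (Sq * Sq) = 0 := by
  rw [coeff_mul]
  refine sum_eq_zero fun p hp => ?_
  by_contra h2
  obtain ⟨u, hu, e1⟩ := Sq_supp p.1 (left_ne_zero_of_mul h2)
  obtain ⟨v, hv, e2⟩ := Sq_supp p.2 (right_ne_zero_of_mul h2)
  rw [HasAntidiagonal.mem_antidiagonal] at hp
  exact h u v hu hv (by rw [e1, e2, hp])

lemma Sq3 {N : ℕ} (h : ∀ u v, 0 < u → 0 < v → u * u + 2 * (v * v) ≠ N) :
    (2 : ℤ) ∣ coeff N (Sq * Sq * Sq) := by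
  rw [coeff_mul]
  refine dvd_sum fun p hp => ?_
  by_cases h2 : coeff p.2 Sq = 0
  · rw [h2, mul_zero]; exact dvd_zero _
  obtain ⟨u, hu, e1⟩ := Sq_supp p.2 h2
  rw [HasAntidiagonal.mem_antidiagonal] at hp
  refine Dvd.dvd.mul_right ?_ _
  rw [show (2 : ℤ) = ((2 : ℕ) : ℤ) from rfl, ← ZMod.intCast_zmod_eq_zero_iff_dvd, coeff_mul,
    Int.cast_sum]
  refine sum_involution (fun q _ => (q.2, q.1)) ?_ ?_ ?_ ?_
  · intro q _
    push_cast
    rw [mul_comm ((coeff q.2 Sq : ℤ) : ZMod 2), ← two_mul]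
    rw [show (2 : ZMod 2) = 0 from rfl, zero_mul]
  · intro q hq hne heq
    rw [HasAntidiagonal.mem_antidiagonal] at hq
    have h3 : coeff q.1 Sq ≠ 0 := by
      intro h4; apply hne; rw [h4, zero_mul, Int.cast_zero]
    obtain ⟨v, hv, e2⟩ := Sq_supp q.1 h3
    have h5 : q.2 = q.1 := congrArg Prod.fst heq
    exact h u v hu hv (by rw [e1, e2]; omega)
  · intro q hq
    rw [HasAntidiagonal.mem_antidiagonal] at hq ⊢
    simp only; omega
  · intro q _; rfl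

/-- overpartitions modulo 16 -/
lemma OP_mod {N : ℕ} (hN : N ≠ 0) (h1 : ∀ u, u * u ≠ N)
    (h2 : ∀ u v, 0 < u → 0 < v → u * u + v * v ≠ N)
    (h3 : ∀ u v, 0 < u → 0 < v → u * u + 2 * (v * v) ≠ N) : (16 : ℤ) ∣ coeff N OP := by
  have h : OP * (1 + 2 * Sq) = 1 := by rw [← th0_eq]; exact OP_th
  have h4 : OP = 1 - C 2 * Sq + C 4 * (Sq * Sq) - C 8 * (Sq * Sq * Sq) +
      C 16 * (Sq * Sq * Sq * Sq * OP) := by
    rw [show (C (2 : ℤ) : ℤ⟦X⟧) = 2 from rfl, show (C (4 : ℤ) : ℤ⟦X⟧) = 4 from rfl,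
      show (C (8 : ℤ) : ℤ⟦X⟧) = 8 from rfl, show (C (16 : ℤ) : ℤ⟦X⟧) = 16 from rfl]
    linear_combination (1 - 2 * Sq + 4 * (Sq * Sq) - 8 * (Sq * Sq * Sq)) * h
  rw [h4]
  simp only [map_add, map_sub, coeff_C_mul]
  rw [Sq2 h2, coeff_one, if_neg hN]
  have h5 : coeff N Sq = 0 := by
    by_contra h6
    obtain ⟨k, _, hk⟩ := Sq_supp N h6
    exact h1 k hk
  rw [h5]
  obtain ⟨t, ht⟩ := Sq3 h3
  rw [ht]
  exact ⟨-t + coeff N (Sq * Sq * Sq * Sq * OP), by ring⟩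

/-- `2 ν_1 + 4 ν_2 + 8 ν_3` modulo 16 -/
lemma sum_mod {N : ℕ} (hN : N ≠ 0) : (16 : ℤ) ∣ coeff N OP -
    (2 * (nuk 1 N : ℤ) + 4 * nuk 2 N + 8 * nuk 3 N) := by
  rw [coeff_OP]
  unfold nuk
  simp only [card_filter, Nat.cast_sum, mul_sum]
  rw [← sum_add_distrib, ← sum_add_distrib, ← sum_sub_distrib]
  refine dvd_sum fun p _ => ?_
  have h0 : p.parts.toFinset.card ≠ 0 := by
    intro h
    rw [card_eq_zero, Multiset.toFinset_eq_empty] at h
    have := p.parts_sum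
    rw [h, Multiset.sum_zero] at this
    exact hN this.symm
  obtain ⟨c, hc⟩ : ∃ c, c = p.parts.toFinset.card := ⟨_, rfl⟩
  rw [← hc] at h0 ⊢
  rcases c with _ | _ | _ | _ | c
  · exact absurd rfl h0
  · norm_num
  · norm_num
  · norm_num
  · rw [if_neg (by omega), if_neg (by omega), if_neg (by omega)]
    push_cast
    exact ⟨2 ^ c, by ring⟩

end Q279.CD
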