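import Pool.Agent.Q279.CD.Over

/-!
# Maximal progressions
-/

set_option autoImplicit false

namespace Q279.CD

open Finset

/-- `P(A, B) = {A n + B : n ≥ 0}` -/
def prog (A B : ℕ) : Set ℕ := {m | ∃ n : ℕ, m = A * n + B}

/-- `(A, B)` is a `(ν_k, M)`-progression -/
def IsProg (k M A B : ℕ) : Prop :=
  1 ≤ A ∧ 1 ≤ B ∧ B ≤ A ∧ ∀ n : ℕ, nuk k (A * n + B) ≡ 0 [MOD M]

/-- maximal `(ν_k, M)`-progressions -/
def IsMax (k M A B : ℕ) : Prop :=
  IsProg k M A B ∧ ¬ ∃ A' B', IsProg k M A' B' ∧ prog A B ⊂ prog A' B'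

lemma prog_subset {A B A' B' : ℕ} (h : prog A B ⊆ prog A' B') :
    A' ∣ A ∧ B % A' = B' % A' := by
  obtain ⟨n, hn⟩ := h ⟨0, rfl⟩
  obtain ⟨m, hm⟩ := h ⟨1, rfl⟩
  simp only [mul_zero, zero_add, mul_one] at hn hm
  constructor
  · have : A = A' * m - A' * n := by omega
    rw [this]
    exact Nat.dvd_sub (dvd_mul_right _ _) (dvd_mul_right _ _)
  · rw [hn, Nat.mul_add_mod]

lemma exists_max {k M A B : ℕ} (h : IsProg k M A B) :
    ∃ A' B', IsMax k M A' B' ∧ prog A B ⊆ prog A' B' := by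
  classical
  have hex : ∃ A', ∃ B', IsProg k M A' B' ∧ prog A B ⊆ prog A' B' := ⟨A, B, h, subset_rfl⟩
  obtain ⟨B', h1, h2⟩ := Nat.find_spec hex
  refine ⟨Nat.find hex, B', ⟨h1, ?_⟩, h2⟩
  rintro ⟨A'', B'', h3, h4⟩
  have h5 : Nat.find hex ≤ A'' := Nat.find_min' hex ⟨B'', h3, h2.trans h4.1⟩
  obtain ⟨h6, h7⟩ := prog_subset h4.1
  have h8 : A'' = Nat.find hex := le_antisymm (Nat.le_of_dvd h1.1 h6) h5
  apply h4.2
  have h9 : B'' = B' := by
    rw [← h8] at h1
    have e1 := h1.2.1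
    have e2 := h1.2.2.1
    have e3 := h3.2.1
    have e4 := h3.2.2.1
    rcases Nat.lt_or_ge B' A'' with c | c
    · rcases Nat.lt_or_ge B'' A'' with c' | c'
      · rw [Nat.mod_eq_of_lt c, Nat.mod_eq_of_lt c'] at h7; exact h7.symm
      · have : B'' = A'' := le_antisymm e4 c'
        rw [this, Nat.mod_self, Nat.mod_eq_of_lt c] at h7
        omega
    · have e5 : B' = A'' := le_antisymm e2 c
      rcases Nat.lt_or_ge B'' A'' with c' | c'
      · rw [e5, Nat.mod_self, Nat.mod_eq_of_lt c'] at h7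
        omega
      · omega
  rw [h8, h9]

/-- infinitely many maximal progressions -/
theorem infinite_max {k M : ℕ} (h6 : ¬ nuk k 6 ≡ 0 [MOD M])
    (h : ∀ q : ℕ, q.Prime → q % 8 = 7 → IsProg k M (4 * q ^ 2) (4 * q ^ 2 - 2 * q)) :
    {p : ℕ × ℕ | IsMax k M p.1 p.2}.Infinite := by
  intro hfin
  obtain ⟨b, hb⟩ := (hfin.image Prod.fst).bddAbove
  have : NeZero (8 : ℕ) := ⟨by norm_num⟩
  obtain ⟨q, hq, hqp, hq8⟩ := Nat.forall_exists_prime_gt_and_eq_mod
    (show IsUnit ((7 : ℕ) : ZMod 8) by decide) b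
  have hq7 : q % 8 = 7 := by
    rw [ZMod.natCast_eq_natCast_iff'] at hq8
    exact hq8
  have hP := h q hqp hq7
  obtain ⟨A, B, hmax, hsub⟩ := exists_max hP
  have hA : A ≤ b := hb ⟨(A, B), hmax, rfl⟩
  obtain ⟨h1, h2⟩ := prog_subset hsub
  have hcop : Nat.Coprime A (q ^ 2) := by
    apply Nat.Coprime.pow_right
    rw [Nat.coprime_comm, Nat.Prime.coprime_iff_not_dvd hqp]
    intro h3
    have := Nat.le_of_dvd hmax.1.1 h3
    omega
  have h4 : A ∣ 4 := hcop.dvd_of_dvd_mul_right h1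
  have hq2 : 4 * q ^ 2 - 2 * q = 4 * (q ^ 2 - q) + 2 * q := by
    have : q ≤ q ^ 2 := by nlinarith [hqp.pos]
    omega
  have h5 : 6 % A = B % A := by
    rw [← h2, hq2]
    obtain ⟨c, hc⟩ := h4
    obtain ⟨r, hr⟩ : ∃ r, 2 * q = 4 * r + 6 := ⟨(q - 3) / 2, by omega⟩
    rw [hr, show 4 * (q ^ 2 - q) + (4 * r + 6) = A * (c * (q ^ 2 - q + r)) + 6 by
      rw [← mul_assoc, ← hc]; ring, Nat.mul_add_mod]
  have hB := hmax.1.2.2.1
  have hA4 : A ≤ 4 := Nat.le_of_dvd (by norm_num) h4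
  have h7 : (6 : ℕ) ∈ prog A B := by
    refine ⟨(6 - B) / A, ?_⟩
    have h8 : A ∣ 6 - B := (Nat.modEq_iff_dvd' (by omega)).1 h5.symm
    rw [Nat.mul_div_cancel' h8]; omega
  obtain ⟨n, hn⟩ := h7
  apply h6
  rw [hn]
  exact hmax.1.2.2.2 n

/-! ### The progressions `4 q² n + (4 q² - 2 q)` -/

section family

variable {q m : ℕ}

lemma not_sq_neg (hq : q.Prime) (h : q % 8 = 7) {u v : ℕ} (c : ℕ) (hc : c = 1 ∨ c = 2)
    (e : q ∣ u * u + c * (v * v)) : q ∣ u ∧ q ∣ v := by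
  have : Fact q.Prime := ⟨hq⟩
  have h1 : (u : ZMod q) * u + c * (v * v) = 0 := by
    have := (ZMod.natCast_eq_zero_iff (u * u + c * (v * v)) q).2 e
    push_cast at this
    exact this
  have h2 : (v : ZMod q) = 0 := by
    by_contra hv
    have h3 : IsSquare (-(c : ZMod q)) := by
      refine ⟨(u : ZMod q) / v, ?_⟩
      field_simp
      linear_combination -h1
    rcases hc with rfl | rfl
    · rw [Nat.cast_one, ZMod.exists_sq_eq_neg_one_iff] at h3
      omega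
    · rw [Nat.cast_ofNat, ZMod.exists_sq_eq_neg_two_iff (by rintro rfl; norm_num at h)] at h3
      omega
  rw [h2, mul_zero, mul_zero, add_zero, mul_self_eq_zero] at h1
  exact ⟨(ZMod.natCast_eq_zero_iff u q).1 h1, (ZMod.natCast_eq_zero_iff v q).1 h2⟩

lemma no_rep (hq : q.Prime) (h : q % 8 = 7) (hm : ¬ q ∣ m) (u v : ℕ) (c : ℕ)
    (hc : c = 1 ∨ c = 2) (t : ℕ) (ht : t = 1 ∨ t = 2) : u * u + c * (v * v) ≠ t * (q * m) := by
  intro e
  obtain ⟨⟨a, rfl⟩, ⟨b, rfl⟩⟩ := not_sq_neg hq h c hc ⟨t * m, by rw [e]; ring⟩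
  have h1 : q * (q * (a * a + c * (b * b))) = q * (t * m) := by linarith [e]
  have h2 := Nat.eq_of_mul_eq_mul_left hq.pos h1
  rcases (Nat.Prime.dvd_mul hq).1 (show q ∣ t * m from ⟨_, h2.symm⟩) with h3 | h3
  · have := Nat.le_of_dvd (by omega) h3
    omega
  · exact hm h3

lemma nu_family (hq : q.Prime) (h : q % 8 = 7) (hm : ¬ q ∣ m) (h2 : m % 2 = 1) :
    nuk 2 (2 * (q * m)) % 4 = 0 := by
  obtain ⟨h3, h4⟩ := sg_mul hq hm
  have hR : R (q * m) = 0 := by
    refine cnt_zero fun x y a b _ _ _ _ e hh => ?_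
    obtain ⟨rfl, rfl⟩ := hh
    exact no_rep hq h hm y x 2 (Or.inr rfl) 1 (Or.inl rfl) (by linarith [e])
  have h5 : (q * m) % 2 = 1 := by
    rw [Nat.mul_mod, h2, show q % 2 = 1 by omega]
  have h6 : sg (q * m) % 8 = 0 := by
    rw [h3, Nat.mul_mod, show (q + 1) % 8 = 0 by omega]; simp
  have h7 := main h5 (fun u v _ _ he => no_rep hq h hm u v 1 (Or.inl rfl) 2 (Or.inr rfl)
    (by linarith [he])) (by rw [hR]) h6
  rw [nuk_two]
  exact h7.1

lemma nu3_family (hq : q.Prime) (h : q % 8 = 7) (hm : ¬ q ∣ m) (h2 : m % 2 = 1)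
    (hsq : ∀ d, d * d ≠ m) : nuk 3 (2 * (q * m)) % 2 = 0 := by
  have h1 := nu_family hq h hm h2
  obtain ⟨h3, h4⟩ := sg_mul hq hm
  have h6 := card_even hsq
  have hqm : (q * m) % 2 = 1 := by
    rw [Nat.mul_mod, h2, show q % 2 = 1 by omega]
  have hN : 2 * (q * m) ≠ 0 := by omega
  have hcop : Nat.Coprime 2 (q * m) := by
    rw [Nat.coprime_two_left, Nat.odd_iff]; exact hqm
  have h7 : (2 * (q * m)).divisors.card = 2 * (q * m).divisors.card := by
    rw [hcop.card_divisors_mul]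
    congr 1
  have h8 := nuk_one hN
  have h9 := sum_mod hN
  have h10 := OP_mod hN (fun u hu => by
      have := Nat.mul_mod u u 4
      have h3 : u % 4 = 0 ∨ u % 4 = 1 ∨ u % 4 = 2 ∨ u % 4 = 3 := by omega
      rcases h3 with h3 | h3 | h3 | h3 <;> rw [h3] at this <;> norm_num at this <;> omega)
    (fun u v _ _ he => no_rep hq h hm u v 1 (Or.inl rfl) 2 (Or.inr rfl) (by linarith [he]))
    (fun u v _ _ he => no_rep hq h hm u v 2 (Or.inr rfl) 2 (Or.inr rfl) he)
  omega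

lemma family_eq (hq0 : 0 < q) (n : ℕ) :
    4 * q ^ 2 * n + (4 * q ^ 2 - 2 * q) = 2 * (q * (2 * q * (n + 1) - 1)) := by
  have h1 : 2 * q ≤ 4 * q ^ 2 := by nlinarith
  have h2 : 1 ≤ 2 * q * (n + 1) := by nlinarith
  zify [h1, h2]
  ring

lemma family_props (hq : q.Prime) (h : q % 8 = 7) (n : ℕ) :
    ¬ q ∣ 2 * q * (n + 1) - 1 ∧ (2 * q * (n + 1) - 1) % 2 = 1 ∧
      ∀ d, d * d ≠ 2 * q * (n + 1) - 1 := by
  have h0 : 1 ≤ q * (n + 1) := Nat.mul_pos hq.pos (by omega)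
  have h1 : 2 * q * (n + 1) = 2 * (q * (n + 1)) := by ring
  refine ⟨?_, by omega, ?_⟩
  · intro h2
    have h3 : q ∣ 2 * q * (n + 1) := ⟨2 * (n + 1), by ring⟩
    have h4 : q ∣ 1 := by
      have := Nat.dvd_sub h3 h2
      rwa [show 2 * q * (n + 1) - (2 * q * (n + 1) - 1) = 1 by omega] at this
    exact hq.one_lt.ne' (Nat.dvd_one.1 h4)
  · intro d hd
    have h5 : q ∣ d * d + 1 * (1 * 1) := by
      rw [hd]
      exact ⟨2 * (n + 1), by rw [show 2 * q * (n + 1) - 1 + 1 * (1 * 1) = 2 * q * (n + 1) by omega]; ring⟩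
    have h6 := (not_sq_neg hq h 1 (Or.inl rfl) h5).2
    exact hq.one_lt.ne' (Nat.dvd_one.1 h6)

lemma isProg_two (hq : q.Prime) (h : q % 8 = 7) :
    IsProg 2 4 (4 * q ^ 2) (4 * q ^ 2 - 2 * q) := by
  have h1 : 4 * q < 4 * q ^ 2 := by nlinarith [hq.one_lt]
  refine ⟨by omega, by omega, by omega, fun n => ?_⟩
  rw [family_eq hq.pos]
  obtain ⟨e1, e2, e3⟩ := family_props hq h n
  exact nu_family hq h e1 e2

lemma isProg_three (hq : q.Prime) (h : q % 8 = 7) :
    IsProg 3 2 (4 * q ^ 2) (4 * q ^ 2 - 2 * q) := by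
  have h1 : 4 * q < 4 * q ^ 2 := by nlinarith [hq.one_lt]
  refine ⟨by omega, by omega, by omega, fun n => ?_⟩
  rw [family_eq hq.pos]
  obtain ⟨e1, e2, e3⟩ := family_props hq h n
  exact nu3_family hq h e1 e2 e3

end family

lemma nuk_two_six : nuk 2 6 = 6 := by
  rw [nuk_two]
  unfold nu cnt
  convert (by decide +kernel : ((Q 6).filter fun q => q.2.1 < q.1).card = 6)

lemma subsets_six : ∀ s ∈ (Icc 1 6).powerset, s.card = 3 → ∑ i ∈ s, i ≤ 6 → s = {1, 2, 3} := by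
  decide +kernel

lemma nuk_three_six : nuk 3 6 = 1 := by
  unfold nuk
  rw [card_eq_one]
  refine ⟨⟨{1, 2, 3}, by decide, by decide⟩, ?_⟩
  ext p
  rw [mem_filter, mem_singleton]
  constructor
  · rintro ⟨_, h⟩
    have hsum := p.parts_sum
    rw [Finset.sum_multiset_count] at hsum
    have hc : ∀ i ∈ p.parts.toFinset, 1 ≤ p.parts.count i := fun i hi =>
      Multiset.one_le_count_iff_mem.2 (Multiset.mem_toFinset.1 hi)
    have hs : ∑ i ∈ p.parts.toFinset, i ≤ 6 := by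
      refine le_trans (sum_le_sum fun i hi => ?_) hsum.le
      rw [smul_eq_mul]
      exact Nat.le_mul_of_pos_left i (hc i hi)
    have hsub : p.parts.toFinset ∈ (Icc 1 6).powerset := by
      rw [mem_powerset]
      intro i hi
      rw [mem_Icc]
      exact ⟨p.parts_pos (Multiset.mem_toFinset.1 hi),
        (single_le_sum (f := fun i => i) (fun j _ => Nat.zero_le j) hi).trans hs⟩
    have h3 := subsets_six _ hsub h hs
    have h1 := hc 1 (by rw [h3]; decide)
    have h2 := hc 2 (by rw [h3]; decide)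
    have h4 := hc 3 (by rw [h3]; decide)
    rw [h3, sum_insert (by decide), sum_insert (by decide), sum_singleton] at hsum
    simp only [smul_eq_mul] at hsum
    ext1
    simp only
    ext z
    by_cases hz : z ∈ p.parts.toFinset
    · rw [h3] at hz
      simp only [mem_insert, mem_singleton] at hz
      rcases hz with rfl | rfl | rfl
      · rw [show p.parts.count 1 = 1 by omega]; decide
      · rw [show p.parts.count 2 = 1 by omega]; decide
      · rw [show p.parts.count 3 = 1 by omega]; decide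
    · rw [Multiset.count_eq_zero_of_notMem (fun h => hz (Multiset.mem_toFinset.2 h)),
        Multiset.count_eq_zero_of_notMem]
      intro h
      apply hz
      rw [h3]
      simpa using h
  · rintro rfl
    exact ⟨mem_univ _, by decide⟩

theorem infinite_two : {p : ℕ × ℕ | IsMax 2 4 p.1 p.2}.Infinite :=
  infinite_max (by rw [nuk_two_six]; decide) fun _ hq h => isProg_two hq h

theorem infinite_three : {p : ℕ × ℕ | IsMax 3 2 p.1 p.2}.Infinite :=
  infinite_max (by rw [nuk_three_six]; decide) fun _ hq h => isProg_three hq h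

end Q279.CD
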