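import Pool.Agent.Q279.CD.Basic

/-!
# Bijections between sets of quadruples
-/

set_option autoImplicit false

namespace Q279.CD

open Finset

lemma conj (N : ℕ) (P : ℕ → ℕ → ℕ → ℕ → Prop) :
    cnt N (fun x y a b => y < x ∧ P x y a b) =
      cnt N (fun x y a b => y < x ∧ P (a + b) a y (x - y)) := by
  refine cnt_eq (fun q => (q.2.2.1 + q.2.2.2, q.2.2.1, q.2.1, q.1 - q.2.1))
    (fun q => (q.2.2.1 + q.2.2.2, q.2.2.1, q.2.1, q.1 - q.2.1)) ?_ ?_
  · rintro x y a b hx hy ha hb e ⟨h, hP⟩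
    obtain ⟨t, rfl⟩ := Nat.exists_eq_add_of_lt h
    refine ⟨⟨⟨?_, ?_, ?_, ?_, ?_⟩, ?_, ?_⟩, ?_⟩
    · simp only; omega
    · simp only; omega
    · simp only; omega
    · simp only; omega
    · simp only [show y + t + 1 - y = t + 1 by omega]; rw [← e]; ring
    · simp only; omega
    · simp only [show y + (y + t + 1 - y) = y + t + 1 by omega, show a + b - a = b by omega]
      exact hP
    · simp only [show y + (y + t + 1 - y) = y + t + 1 by omega, show a + b - a = b by omega]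
  · rintro x y a b hx hy ha hb e ⟨h, hP⟩
    obtain ⟨t, rfl⟩ := Nat.exists_eq_add_of_lt h
    refine ⟨⟨⟨?_, ?_, ?_, ?_, ?_⟩, ?_, ?_⟩, ?_⟩
    · simp only; omega
    · simp only; omega
    · simp only; omega
    · simp only; omega
    · simp only [show y + t + 1 - y = t + 1 by omega]; rw [← e]; ring
    · simp only; omega
    · exact hP
    · simp only [show y + (y + t + 1 - y) = y + t + 1 by omega, show a + b - a = b by omega]

lemma swap (N : ℕ) (P : ℕ → ℕ → ℕ → ℕ → Prop) :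
    cnt N P = cnt N (fun x y a b => P y x b a) := by
  refine cnt_eq (fun q => (q.2.1, q.1, q.2.2.2, q.2.2.1))
    (fun q => (q.2.1, q.1, q.2.2.2, q.2.2.1)) ?_ ?_ <;>
  · rintro x y a b hx hy ha hb e hP
    exact ⟨⟨⟨hy, hx, hb, ha, by simp only; rw [← e]; ring⟩, hP⟩, rfl⟩

lemma d1 (N : ℕ) (P : ℕ → ℕ → ℕ → ℕ → Prop) :
    cnt N P = cnt N (fun x y a b => P a y x b) := by
  refine cnt_eq (fun q => (q.2.2.1, q.2.1, q.1, q.2.2.2))
    (fun q => (q.2.2.1, q.2.1, q.1, q.2.2.2)) ?_ ?_ <;>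
  · rintro x y a b hx hy ha hb e hP
    exact ⟨⟨⟨ha, hy, hx, hb, by simp only; rw [← e]; ring⟩, hP⟩, rfl⟩

lemma d2 (N : ℕ) (P : ℕ → ℕ → ℕ → ℕ → Prop) :
    cnt N P = cnt N (fun x y a b => P x b a y) := by
  refine cnt_eq (fun q => (q.1, q.2.2.2, q.2.2.1, q.2.1))
    (fun q => (q.1, q.2.2.2, q.2.2.1, q.2.1)) ?_ ?_ <;>
  · rintro x y a b hx hy ha hb e hP
    exact ⟨⟨⟨hx, hb, ha, hy, by simp only; rw [← e]; ring⟩, hP⟩, rfl⟩

lemma shear (N : ℕ) (P : ℕ → ℕ → ℕ → ℕ → Prop) :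
    cnt N (fun x y a b => x < y ∧ P x y a b) =
      cnt N (fun x y a b => b < a ∧ P x (x + y) (a - b) b) := by
  refine cnt_eq (fun q => (q.1, q.2.1 - q.1, q.2.2.1 + q.2.2.2, q.2.2.2))
    (fun q => (q.1, q.1 + q.2.1, q.2.2.1 - q.2.2.2, q.2.2.2)) ?_ ?_
  · rintro x y a b hx hy ha hb e ⟨h, hP⟩
    obtain ⟨t, rfl⟩ := Nat.exists_eq_add_of_lt h
    refine ⟨⟨⟨?_, ?_, ?_, ?_, ?_⟩, ?_, ?_⟩, ?_⟩
    · simp only; omega
    · simp only; omega
    · simp only; omega
    · simp only; omega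
    · simp only [show x + t + 1 - x = t + 1 by omega]; rw [← e]; ring
    · simp only; omega
    · simp only [show x + (x + t + 1 - x) = x + t + 1 by omega, show a + b - b = a by omega]
      exact hP
    · simp only [show x + (x + t + 1 - x) = x + t + 1 by omega, show a + b - b = a by omega]
  · rintro x y a b hx hy ha hb e ⟨h, hP⟩
    obtain ⟨t, rfl⟩ := Nat.exists_eq_add_of_lt h
    refine ⟨⟨⟨?_, ?_, ?_, ?_, ?_⟩, ?_, ?_⟩, ?_⟩
    · simp only; omega
    · simp only; omega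
    · simp only; omega
    · simp only; omega
    · simp only [show b + t + 1 - b = t + 1 by omega]; rw [← e]; ring
    · simp only; omega
    · exact hP
    · simp only [show x + y - x = y by omega, show b + t + 1 - b + b = b + t + 1 by omega]

/-- halving `x` and `y` -/
lemma half (n : ℕ) (P : ℕ → ℕ → ℕ → ℕ → Prop) :
    cnt (2 * n) (fun x y a b => (x % 2 = 0 ∧ y % 2 = 0) ∧ P x y a b) =
      cnt n (fun x y a b => P (2 * x) (2 * y) a b) := by
  refine cnt_eq (fun q => (q.1 / 2, q.2.1 / 2, q.2.2.1, q.2.2.2))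
    (fun q => (2 * q.1, 2 * q.2.1, q.2.2.1, q.2.2.2)) ?_ ?_
  · rintro x y a b hx hy ha hb e ⟨⟨h1, h2⟩, hP⟩
    obtain ⟨x, rfl⟩ : ∃ t, x = 2 * t := ⟨x / 2, by omega⟩
    obtain ⟨y, rfl⟩ : ∃ t, y = 2 * t := ⟨y / 2, by omega⟩
    simp only [show 2 * x / 2 = x by omega, show 2 * y / 2 = y by omega]
    refine ⟨⟨⟨?_, ?_, ha, hb, ?_⟩, hP⟩, trivial⟩
    · simp only; omega
    · simp only; omega
    · simp only
      have : 2 * (x * a + y * b) = 2 * n := by rw [← e]; ring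
      omega
  · rintro x y a b hx hy ha hb e hP
    simp only [show 2 * x / 2 = x by omega, show 2 * y / 2 = y by omega]
    refine ⟨⟨⟨?_, ?_, ha, hb, ?_⟩, ⟨?_, ?_⟩, hP⟩, trivial⟩
    · simp only; omega
    · simp only; omega
    · simp only; rw [← e]; ring
    · simp only; omega
    · simp only; omega

lemma odd_of {x a y b N : ℕ} (e : x * a + y * b = N) :
    (x % 2) * (a % 2) % 2 + (y % 2) * (b % 2) % 2 = N % 2 ∨
    (x % 2) * (a % 2) % 2 + (y % 2) * (b % 2) % 2 = N % 2 + 2 := by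
  have h1 := Nat.mul_mod x a 2
  have h2 := Nat.mul_mod y b 2
  omega

/-- `N^1` for `rk_2` -/
lemma rk2_odd (N : ℕ) : cnt N (fun x y a b => y < x ∧ (x + y + b) % 2 = 1) =
    2 * cnt N (fun x y a b => y < x ∧ (x + y) % 2 = 0 ∧ b % 2 = 1) := by
  rw [cnt_split N _ (fun x y _ _ => (x + y) % 2 = 0), two_mul]
  congr 1
  · refine cnt_congr fun x y a b _ _ _ _ _ => ?_
    omega
  · rw [conj N (fun x y a b => (x + y) % 2 = 0 ∧ b % 2 = 1)]
    refine cnt_congr fun x y a b _ _ _ _ _ => ?_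
    omega

/-- `N^1` for `rk` -/
lemma rk_odd (N : ℕ) : cnt N (fun x y a b => y < x ∧ (x + a + b) % 2 = 1) =
    2 * cnt N (fun x y a b => y < x ∧ x % 2 = 1 ∧ (a + b) % 2 = 0) := by
  rw [cnt_split N _ (fun x _ _ _ => x % 2 = 1), two_mul]
  congr 1
  · refine cnt_congr fun x y a b _ _ _ _ _ => ?_
    omega
  · rw [conj N (fun x y a b => x % 2 = 1 ∧ (a + b) % 2 = 0)]
    refine cnt_congr fun x y a b _ _ _ _ _ => ?_
    omega

/-- the number of quadruples of odd numbers with `x > y` -/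
noncomputable def G2 (N : ℕ) : ℕ :=
  cnt N (fun x y a b => y < x ∧ x % 2 = 1 ∧ y % 2 = 1 ∧ a % 2 = 1 ∧ b % 2 = 1)

/-- `a` even, `b` odd -/
noncomputable def K (n : ℕ) : ℕ := cnt n (fun _ _ a b => a % 2 = 0 ∧ b % 2 = 1)

/-- `a` even, `b` odd, `x = y` -/
noncomputable def K0 (n : ℕ) : ℕ := cnt n (fun x y a b => x = y ∧ a % 2 = 0 ∧ b % 2 = 1)

lemma mod2_cases (x : ℕ) : x % 2 = 0 ∨ x % 2 = 1 := by omega

lemma G1_eq {n : ℕ} (hn : n % 2 = 1) : cnt n (fun x y _ b => y < x ∧ b % 2 = 1) = K n := by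
  -- `L`
  have hL1 : cnt n (fun _ _ a b => a % 2 = 1 ∧ b % 2 = 1) =
      2 * cnt n (fun x y a b => y < x ∧ a % 2 = 1 ∧ b % 2 = 1) := by
    rw [cnt_split n _ (fun x y _ _ => y < x), two_mul]
    congr 1
    · exact cnt_congr fun x y a b _ _ _ _ _ => by omega
    · rw [swap n (fun x y a b => y < x ∧ a % 2 = 1 ∧ b % 2 = 1)]
      refine cnt_congr fun x y a b _ _ _ _ e => ?_
      constructor
      · rintro ⟨⟨h1, h2⟩, h3⟩
        refine ⟨?_, h2, h1⟩
        rcases lt_or_eq_of_le (not_lt.1 h3) with h | h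
        · exact h
        · exfalso
          subst h
          have h4 := odd_of e
          rw [h1, h2] at h4
          rcases mod2_cases x with h5 | h5 <;> rw [h5] at h4 <;> omega
      · rintro ⟨h1, h2, h3⟩; omega
  have hL2 : cnt n (fun _ _ a b => a % 2 = 1 ∧ b % 2 = 1) =
      2 * cnt n (fun x y a b => b < a ∧ a % 2 = 1 ∧ b % 2 = 1) +
        cnt n (fun x y a b => a = b ∧ a % 2 = 1 ∧ b % 2 = 1) := by
    rw [cnt_split n _ (fun x y a b => b < a), two_mul, add_assoc]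
    congr 1
    · exact cnt_congr fun x y a b _ _ _ _ _ => by omega
    · rw [cnt_split n _ (fun x y a b => a < b)]
      congr 1
      · rw [swap n (fun x y a b => b < a ∧ a % 2 = 1 ∧ b % 2 = 1)]
        exact cnt_congr fun x y a b _ _ _ _ _ => by omega
      · exact cnt_congr fun x y a b _ _ _ _ _ => by omega
  have hd : cnt n (fun x y a b => a = b ∧ a % 2 = 1 ∧ b % 2 = 1) = 2 * K0 n := by
    rw [cnt_split n _ (fun x y a b => x % 2 = 0), two_mul, K0]
    have e1 : cnt n (fun x y a b => (a = b ∧ a % 2 = 1 ∧ b % 2 = 1) ∧ x % 2 = 0) =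
        cnt n (fun x y a b => x = y ∧ a % 2 = 0 ∧ b % 2 = 1) := by
      rw [d1 n (fun x y a b => x = y ∧ a % 2 = 0 ∧ b % 2 = 1),
        d2 n (fun x y a b => a = y ∧ x % 2 = 0 ∧ b % 2 = 1)]
      refine cnt_congr fun x y a b _ _ _ _ e => ?_
      have h4 := odd_of e
      constructor
      · rintro ⟨⟨rfl, h1, _⟩, h2⟩
        refine ⟨rfl, h2, ?_⟩
        rw [h1, h2] at h4
        rcases mod2_cases y with h5 | h5 <;> rw [h5] at h4 <;> omega
      · rintro ⟨rfl, h1, h2⟩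
        rw [h1, h2] at h4
        refine ⟨⟨rfl, ?_, ?_⟩, h1⟩ <;>
        · rcases mod2_cases a with h5 | h5 <;> rw [h5] at h4 <;> omega
    have e2 : cnt n (fun x y a b => (a = b ∧ a % 2 = 1 ∧ b % 2 = 1) ∧ ¬ x % 2 = 0) =
        cnt n (fun x y a b => x = y ∧ a % 2 = 0 ∧ b % 2 = 1) := by
      rw [← e1, swap n (fun x y a b => (a = b ∧ a % 2 = 1 ∧ b % 2 = 1) ∧ x % 2 = 0)]
      refine cnt_congr fun x y a b _ _ _ _ e => ?_
      have h4 := odd_of e
      constructor
      · rintro ⟨⟨rfl, h1, _⟩, h2⟩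
        refine ⟨⟨rfl, h1, h1⟩, ?_⟩
        rw [h1, show x % 2 = 1 by omega] at h4
        rcases mod2_cases y with h5 | h5 <;> rw [h5] at h4 <;> omega
      · rintro ⟨⟨rfl, h1, _⟩, h2⟩
        refine ⟨⟨rfl, h1, h1⟩, ?_⟩
        rw [h1, h2] at h4
        rcases mod2_cases x with h5 | h5 <;> rw [h5] at h4 <;> omega
    rw [e1, e2]
  -- `K`
  have hK : K n = cnt n (fun x y a b => y < x ∧ a % 2 = 0 ∧ b % 2 = 1) + K0 n +
      cnt n (fun x y a b => b < a ∧ a % 2 = 1 ∧ b % 2 = 1) := by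
    rw [K, cnt_split n _ (fun x y _ _ => y < x), add_assoc]
    congr 1
    · exact cnt_congr fun x y a b _ _ _ _ _ => by omega
    · rw [cnt_split n _ (fun x y a b => x = y)]
      congr 1
      · exact cnt_congr fun x y a b _ _ _ _ _ => by omega
      · have h := shear n (fun x y a b => a % 2 = 0 ∧ b % 2 = 1)
        have h1 : cnt n (fun x y a b => ((a % 2 = 0 ∧ b % 2 = 1) ∧ ¬ y < x) ∧ ¬ x = y) =
            cnt n (fun x y a b => x < y ∧ a % 2 = 0 ∧ b % 2 = 1) :=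
          cnt_congr fun x y a b _ _ _ _ _ => by omega
        rw [h1, h]
        exact cnt_congr fun x y a b _ _ _ _ _ => by omega
  have hG : cnt n (fun x y _ b => y < x ∧ b % 2 = 1) =
      cnt n (fun x y a b => y < x ∧ a % 2 = 0 ∧ b % 2 = 1) +
        cnt n (fun x y a b => y < x ∧ a % 2 = 1 ∧ b % 2 = 1) := by
    rw [cnt_split n _ (fun x y a _ => a % 2 = 0)]
    congr 1
    · exact cnt_congr fun x y a b _ _ _ _ _ => by omega
    · exact cnt_congr fun x y a b _ _ _ _ _ => by omega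
  omega

lemma H_eq (n : ℕ) : cnt n (fun x y a b => y < x ∧ (a + b) % 2 = 1) + K0 n = K n := by
  have h1 : cnt n (fun x y a b => (a + b) % 2 = 1) = 2 * K n := by
    rw [cnt_split n _ (fun x y a b => a % 2 = 0), two_mul, K]
    congr 1
    · exact cnt_congr fun x y a b _ _ _ _ _ => by omega
    · rw [swap n (fun x y a b => a % 2 = 0 ∧ b % 2 = 1)]
      exact cnt_congr fun x y a b _ _ _ _ _ => by omega
  have h2 : cnt n (fun x y a b => x = y ∧ (a + b) % 2 = 1) = 2 * K0 n := by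
    rw [cnt_split n _ (fun x y a b => a % 2 = 0), two_mul, K0]
    congr 1
    · exact cnt_congr fun x y a b _ _ _ _ _ => by omega
    · rw [swap n (fun x y a b => x = y ∧ a % 2 = 0 ∧ b % 2 = 1)]
      exact cnt_congr fun x y a b _ _ _ _ _ => by omega
  have h3 : cnt n (fun x y a b => (a + b) % 2 = 1) =
      2 * cnt n (fun x y a b => y < x ∧ (a + b) % 2 = 1) +
        cnt n (fun x y a b => x = y ∧ (a + b) % 2 = 1) := by
    rw [cnt_split n _ (fun x y a b => y < x), two_mul, add_assoc]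
    congr 1
    · exact cnt_congr fun x y a b _ _ _ _ _ => by omega
    · rw [cnt_split n _ (fun x y a b => x < y)]
      congr 1
      · rw [swap n (fun x y a b => y < x ∧ (a + b) % 2 = 1)]
        exact cnt_congr fun x y a b _ _ _ _ _ => by omega
      · exact cnt_congr fun x y a b _ _ _ _ _ => by omega
  omega

/-- `rk_2`, odd -/
lemma rk2_formula {n : ℕ} (hn : n % 2 = 1) :
    cnt (2 * n) (fun x y a b => y < x ∧ (x + y + b) % 2 = 1) = 2 * (K n + G2 (2 * n)) := by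
  rw [rk2_odd, cnt_split (2 * n) _ (fun x y _ _ => x % 2 = 0 ∧ y % 2 = 0)]
  congr 2
  · rw [← G1_eq hn]
    have h := half n (fun x y a b => y < x ∧ b % 2 = 1)
    have h2 : cnt n (fun x y a b => 2 * y < 2 * x ∧ b % 2 = 1) =
        cnt n (fun x y _ b => y < x ∧ b % 2 = 1) := cnt_congr fun x y a b _ _ _ _ _ => by omega
    rw [← h2, ← h]
    exact cnt_congr fun x y a b _ _ _ _ _ => by omega
  · rw [G2]
    refine cnt_congr fun x y a b _ _ _ _ e => ?_
    have h4 := odd_of e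
    constructor
    · rintro ⟨⟨h1, h2, h3⟩, h5⟩
      have hx : x % 2 = 1 := by omega
      have hy : y % 2 = 1 := by omega
      refine ⟨h1, hx, hy, ?_, h3⟩
      rw [hx, hy, h3] at h4
      rcases mod2_cases a with h5 | h5 <;> rw [h5] at h4 <;> omega
    · rintro ⟨h1, h2, h3, h4, h5⟩; omega

/-- `rk`, odd -/
lemma rk_formula (n : ℕ) :
    cnt (2 * n) (fun x y a b => y < x ∧ (x + a + b) % 2 = 1) + 2 * K0 n =
      2 * (K n + G2 (2 * n)) := by
  have h0 : cnt (2 * n) (fun x y a b => y < x ∧ x % 2 = 1 ∧ (a + b) % 2 = 0) + K0 n =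
      K n + G2 (2 * n) := by
    rw [← H_eq n, cnt_split (2 * n) _ (fun x y a b => a % 2 = 0 ∧ b % 2 = 0)]
    have h1 : cnt (2 * n) (fun x y a b => (y < x ∧ x % 2 = 1 ∧ (a + b) % 2 = 0) ∧
        (a % 2 = 0 ∧ b % 2 = 0)) = cnt n (fun x y a b => y < x ∧ (a + b) % 2 = 1) := by
      rw [conj n (fun x y a b => (a + b) % 2 = 1)]
      have h := half n (fun x y a b => b < a ∧ a % 2 = 1)
      rw [d1, d2] at h
      have h2 : cnt n (fun x y a b => y < x ∧ (y + (x - y)) % 2 = 1) =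
          cnt n (fun x y a b => b < a ∧ a % 2 = 1) := by
        rw [d1, d2]
        exact cnt_congr fun x y a b _ _ _ _ _ => by omega
      rw [h2, ← h]
      exact cnt_congr fun x y a b _ _ _ _ _ => by omega
    have h2 : cnt (2 * n) (fun x y a b => (y < x ∧ x % 2 = 1 ∧ (a + b) % 2 = 0) ∧
        ¬ (a % 2 = 0 ∧ b % 2 = 0)) = G2 (2 * n) := by
      rw [G2]
      refine cnt_congr fun x y a b _ _ _ _ e => ?_
      have h4 := odd_of e
      constructor
      · rintro ⟨⟨h1, h2, h3⟩, h5⟩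
        have ha : a % 2 = 1 := by omega
        have hb : b % 2 = 1 := by omega
        refine ⟨h1, h2, ?_, ha, hb⟩
        rw [h2, ha, hb] at h4
        rcases mod2_cases y with h5 | h5 <;> rw [h5] at h4 <;> omega
      · rintro ⟨h1, h2, h3, h4, h5⟩; omega
    rw [h1, h2]; ring
  rw [rk_odd]; omega

end Q279.CD
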