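import Pool.Agent.Q279.CD.Rel

/-!
# Divisor sums, and counts modulo 4 and 8
-/

set_option autoImplicit false

namespace Q279.CD

open Finset

/-- sum of divisors -/
def sg (n : ℕ) : ℕ := ∑ d ∈ n.divisors, d

lemma cnt_eq_sum {M : ℕ} {P : ℕ → ℕ → ℕ → ℕ → Prop} (D : Finset ℕ) (c : ℕ → ℕ)
    (f : ℕ → ℕ → ℕ) (g : ℕ → ℕ)
    (h1 : ∀ x y a b, 0 < x → 0 < y → 0 < a → 0 < b → x * a + y * b = M → P x y a b →
      x ∈ D ∧ g a < c x ∧ x = y ∧ f x (g a) = a)
    (h2 : ∀ x ∈ D, ∀ i < c x, 0 < x ∧ 0 < f x i ∧ f x i < M / x ∧ x * (M / x) = M ∧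
      P x x (f x i) (M / x - f x i) ∧ g (f x i) = i) :
    cnt M P = ∑ x ∈ D, c x := by
  classical
  unfold cnt
  have h3 : ∑ x ∈ D, c x = (D.sigma fun x => range (c x)).card := by
    rw [card_sigma]; simp
  rw [h3]
  refine card_nbij' (fun q => ⟨q.1, g q.2.2.1⟩) (fun s => (s.1, s.1, f s.1 s.2, M / s.1 - f s.1 s.2))
    ?_ ?_ ?_ ?_
  · rintro ⟨x, y, a, b⟩ hq
    rw [mem_coe, mem_filter_Q] at hq
    obtain ⟨⟨hx, hy, ha, hb, e⟩, hP⟩ := hq
    obtain ⟨e1, e2, e3, e4⟩ := h1 x y a b hx hy ha hb e hP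
    rw [mem_coe, mem_sigma, mem_range]
    exact ⟨e1, e2⟩
  · rintro ⟨x, i⟩ hq
    rw [mem_coe, mem_sigma, mem_range] at hq
    obtain ⟨e1, e2, e3, e4, e5, e6⟩ := h2 x hq.1 i hq.2
    rw [mem_coe, mem_filter_Q]
    refine ⟨⟨e1, e1, e2, ?_, ?_⟩, e5⟩
    · simp only; omega
    · simp only
      rw [← mul_add, show f x i + (M / x - f x i) = M / x by omega, e4]
  · rintro ⟨x, y, a, b⟩ hq
    rw [mem_coe, mem_filter_Q] at hq
    obtain ⟨⟨hx, hy, ha, hb, e⟩, hP⟩ := hq
    obtain ⟨e1, e2, e3, e4⟩ := h1 x y a b hx hy ha hb e hP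
    simp only at hx hy ha hb e
    simp only [e4]
    subst e3
    rw [← mul_add] at e
    rw [← e, Nat.mul_div_cancel_left _ hx, show a + b - a = b by omega]
  · rintro ⟨x, i⟩ hq
    rw [mem_coe, mem_sigma, mem_range] at hq
    obtain ⟨e1, e2, e3, e4, e5, e6⟩ := h2 x hq.1 i hq.2
    simp only [e6]

lemma E_eq {M : ℕ} (hM : M ≠ 0) :
    cnt M (fun x y _ _ => x = y) + M.divisors.card = sg M := by
  rw [cnt_eq_sum (D := M.divisors) (c := fun x => M / x - 1) (f := fun _ i => i + 1)
    (g := fun a => a - 1)]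
  · rw [card_eq_sum_ones, ← sum_add_distrib, sg, ← Nat.sum_div_divisors M (fun x => x)]
    refine sum_congr rfl fun x hx => ?_
    have h := Nat.mem_divisors.1 hx
    have h0 : 0 < M / x := Nat.div_pos (Nat.le_of_dvd (by omega) h.1)
      (Nat.pos_of_dvd_of_pos h.1 (by omega))
    omega
  · rintro x y a b hx hy ha hb e rfl
    rw [← mul_add] at e
    have h1 : M / x = a + b := by rw [← e, Nat.mul_div_cancel_left _ hx]
    refine ⟨?_, ?_, rfl, ?_⟩
    · rw [Nat.mem_divisors]; exact ⟨⟨a + b, e.symm⟩, hM⟩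
    · simp only [h1]; omega
    · omega
  · intro x hx i hi
    have h := Nat.mem_divisors.1 hx
    have h0 : 0 < x := Nat.pos_of_dvd_of_pos h.1 (by omega)
    refine ⟨h0, by omega, by omega, Nat.mul_div_cancel' h.1, rfl, by omega⟩

lemma S_eq {n : ℕ} (hn : n % 2 = 1) :
    cnt (2 * n) (fun x y a b => x = y ∧ x % 2 = 1 ∧ y % 2 = 1 ∧ a % 2 = 1 ∧ b % 2 = 1) = sg n := by
  rw [cnt_eq_sum (D := n.divisors) (c := fun x => n / x) (f := fun _ i => 2 * i + 1)
    (g := fun a => a / 2)]
  · rw [sg, ← Nat.sum_div_divisors n (fun x => x)]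
  · rintro x y a b hx hy ha hb e ⟨rfl, h1, _, h2, h3⟩
    rw [← mul_add] at e
    obtain ⟨s, hs⟩ : ∃ s, a + b = 2 * s := ⟨(a + b) / 2, by omega⟩
    rw [hs] at e
    have e' : x * s = n := by
      have : 2 * (x * s) = 2 * n := by rw [← e]; ring
      omega
    have h4 : n / x = s := by rw [← e', Nat.mul_div_cancel_left _ hx]
    refine ⟨?_, ?_, rfl, ?_⟩
    · rw [Nat.mem_divisors]; exact ⟨⟨s, e'.symm⟩, by omega⟩
    · simp only [h4]; omega
    · omega
  · intro x hx i hi
    have h := Nat.mem_divisors.1 hx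
    have h0 : 0 < x := Nat.pos_of_dvd_of_pos h.1 (by omega)
    obtain ⟨s, hs⟩ := h.1
    subst hs
    have h4 : x * s / x = s := Nat.mul_div_cancel_left _ h0
    have h5 : 2 * (x * s) / x = 2 * s := by
      rw [show 2 * (x * s) = x * (2 * s) by ring, Nat.mul_div_cancel_left _ h0]
    simp only [h4] at hi
    simp only [h5]
    have h6 : x % 2 = 1 := by
      have := Nat.mul_mod x s 2
      rcases mod2_cases x with h5 | h5
      · rw [h5] at this; simp at this; omega
      · exact h5
    refine ⟨h0, by omega, by omega, by ring, ⟨trivial, h6, h6, by omega, by omega⟩, by omega⟩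

/-- the number of quadruples, as seen by the symmetries `x ↔ a`, `y ↔ b`, for a symmetric
property -/
lemma sym4 {N : ℕ} {P : ℕ → ℕ → ℕ → ℕ → Prop}
    (h1 : ∀ x y a b, P x y a b ↔ P a y x b) (h2 : ∀ x y a b, P x y a b ↔ P x b a y)
    (h3 : ∀ x y a b, P x y a b ↔ P y x b a)
    (hN : ∀ u v, 0 < u → 0 < v → u * u + v * v ≠ N) :
    cnt N P = 4 * cnt N (fun x y a b => P x y a b ∧ x < a ∧ y < b) +
      4 * cnt N (fun x y a b => P x y a b ∧ x = a ∧ y < b) := by
  have e1 : cnt N P = 2 * cnt N (fun x y a b => P x y a b ∧ x < a) +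
      cnt N (fun x y a b => P x y a b ∧ x = a) := by
    rw [cnt_split N P (fun x y a b => x < a), two_mul, add_assoc]
    congr 1
    rw [cnt_split N _ (fun x y a b => a < x)]
    congr 1
    · rw [d1 N (fun x y a b => P x y a b ∧ x < a)]
      refine cnt_congr fun x y a b _ _ _ _ _ => ?_
      rw [← h1 x y a b]
      by_cases hp : P x y a b
      · simp only [hp, true_and]; omega
      · simp only [hp, false_and]
    · refine cnt_congr fun x y a b _ _ _ _ _ => ?_
      by_cases hp : P x y a b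
      · simp only [hp, true_and]; omega
      · simp only [hp, false_and]
  have e2 : cnt N (fun x y a b => P x y a b ∧ x < a) =
      2 * cnt N (fun x y a b => P x y a b ∧ x < a ∧ y < b) +
      cnt N (fun x y a b => P x y a b ∧ x = a ∧ y < b) := by
    rw [cnt_split N _ (fun x y a b => y < b), two_mul, add_assoc]
    congr 1
    · refine cnt_congr fun x y a b _ _ _ _ _ => ?_
      by_cases hp : P x y a b
      · simp only [hp, true_and]
      · simp only [hp, false_and]
    rw [cnt_split N _ (fun x y a b => b < y)]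
    congr 1
    · rw [d2 N (fun x y a b => P x y a b ∧ x < a ∧ y < b)]
      refine cnt_congr fun x y a b _ _ _ _ _ => ?_
      rw [← h2 x y a b]
      by_cases hp : P x y a b
      · simp only [hp, true_and]; omega
      · simp only [hp, false_and]
    · rw [swap N (fun x y a b => P x y a b ∧ x = a ∧ y < b)]
      refine cnt_congr fun x y a b _ _ _ _ _ => ?_
      rw [← h3 x y a b]
      by_cases hp : P x y a b
      · simp only [hp, true_and]; omega
      · simp only [hp, false_and]
  have e3 : cnt N (fun x y a b => P x y a b ∧ x = a) =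
      2 * cnt N (fun x y a b => P x y a b ∧ x = a ∧ y < b) := by
    rw [cnt_split N _ (fun x y a b => y < b), two_mul]
    congr 1
    · refine cnt_congr fun x y a b _ _ _ _ _ => ?_
      by_cases hp : P x y a b
      · simp only [hp, true_and]
      · simp only [hp, false_and]
    rw [d2 N (fun x y a b => P x y a b ∧ x = a ∧ y < b)]
    refine cnt_congr fun x y a b hx hy ha hb e => ?_
    rw [← h2 x y a b]
    constructor
    · rintro ⟨⟨h1, h2⟩, h3⟩
      refine ⟨h1, h2, ?_⟩
      rcases lt_or_eq_of_le (not_lt.1 h3) with h | h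
      · exact h
      · exfalso
        subst h2; subst h
        exact hN x b hx hy e
    · rintro ⟨h1, h2, h3⟩; exact ⟨⟨h1, h2⟩, by omega⟩
  omega

lemma G2_eq {n : ℕ} (hn : n % 2 = 1) (hN : ∀ u v, 0 < u → 0 < v → u * u + v * v ≠ 2 * n) :
    ∃ t, 2 * G2 (2 * n) + sg n = 4 * t := by
  have hS := S_eq hn
  obtain ⟨N, hN2⟩ : ∃ N, N = 2 * n := ⟨_, rfl⟩
  rw [← hN2] at hS hN ⊢
  have h := sym4 (N := N)
    (P := fun x y a b => x % 2 = 1 ∧ y % 2 = 1 ∧ a % 2 = 1 ∧ b % 2 = 1)
    (fun x y a b => by omega) (fun x y a b => by omega) (fun x y a b => by omega) hN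
  have h2 : cnt N (fun x y a b => x % 2 = 1 ∧ y % 2 = 1 ∧ a % 2 = 1 ∧ b % 2 = 1) =
      2 * G2 N + sg n := by
    rw [← hS, cnt_split N _ (fun x y a b => y < x), two_mul, add_assoc, G2]
    congr 1
    · exact cnt_congr fun x y a b _ _ _ _ _ => by omega
    rw [cnt_split N _ (fun x y a b => x < y)]
    congr 1
    · rw [swap N (fun x y a b => y < x ∧ x % 2 = 1 ∧ y % 2 = 1 ∧ a % 2 = 1 ∧ b % 2 = 1)]
      exact cnt_congr fun x y a b _ _ _ _ _ => by omega
    · exact cnt_congr fun x y a b _ _ _ _ _ => by omega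
  rw [← h2, h]
  exact ⟨_, (mul_add 4 _ _).symm⟩

lemma K0_eq {n : ℕ} (hn : n % 2 = 1) : 2 * K0 n + n.divisors.card = sg n := by
  rw [← E_eq (show n ≠ 0 by omega), K0, two_mul,
    cnt_split n (fun x y _ _ => x = y) (fun _ _ a _ => a % 2 = 0)]
  congr 2
  · refine cnt_congr fun x y a b _ _ _ _ e => ?_
    have h4 := odd_of e
    constructor
    · rintro ⟨h1, h2, h3⟩; omega
    · rintro ⟨rfl, h2⟩
      refine ⟨rfl, h2, ?_⟩
      rw [h2] at h4
      rcases mod2_cases b with h5 | h5
      · rw [h5] at h4; omega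
      · exact h5
  · rw [swap n (fun x y a b => x = y ∧ a % 2 = 0 ∧ b % 2 = 1)]
    refine cnt_congr fun x y a b _ _ _ _ e => ?_
    have h4 := odd_of e
    constructor
    · rintro ⟨h1, h2, h3⟩; omega
    · rintro ⟨rfl, h2⟩
      have h6 : a % 2 = 1 := by omega
      refine ⟨rfl, ?_, h6⟩
      rw [h6] at h4
      rcases mod2_cases b with h5 | h5
      · exact h5
      · rw [h5] at h4
        rcases mod2_cases x with h7 | h7 <;> rw [h7] at h4 <;> omega

/-- the number of all quadruples with `x > y`: `ν_2(N)` -/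
noncomputable def nu (N : ℕ) : ℕ := cnt N (fun x y _ _ => y < x)

/-- `u² + y b = N` -/
noncomputable def W (N : ℕ) : ℕ := cnt N (fun x _ a _ => x = a)

lemma nu_eq {n : ℕ} (hn : n % 2 = 1) (hN : ∀ u v, 0 < u → 0 < v → u * u + v * v ≠ 2 * n) :
    ∃ t, 2 * nu (2 * n) + 3 * sg n = 2 * W (2 * n) + 8 * t := by
  have hE := E_eq (show 2 * n ≠ 0 by omega)
  have hcop : Nat.Coprime 2 n := by
    rw [Nat.coprime_two_left, Nat.odd_iff]; exact hn
  have h6 : (2 * n).divisors.card = 2 * n.divisors.card := by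
    rw [hcop.card_divisors_mul]
    congr 1
  have h7 : sg (2 * n) = 3 * sg n := by
    unfold sg
    rw [hcop.sum_divisors_mul]
    congr 1
  rw [h6, h7] at hE
  clear h6 h7
  obtain ⟨N, hN2⟩ : ∃ N, N = 2 * n := ⟨_, rfl⟩
  rw [← hN2] at hE hN ⊢
  have h := sym4 (N := N) (P := fun _ _ _ _ => True) (fun x y a b => Iff.rfl)
    (fun x y a b => Iff.rfl) (fun x y a b => Iff.rfl) hN
  simp only [true_and] at h
  -- `x a` against `y b`
  have h1 : ∃ t, cnt N (fun x y a b => x < a ∧ y < b) =
      2 * t + cnt N (fun x y a b => (x < a ∧ y < b) ∧ x * a = n) := by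
    refine ⟨cnt N (fun x y a b => (x < a ∧ y < b) ∧ x * a < n), ?_⟩
    rw [cnt_split N _ (fun x y a b => x * a < n), two_mul, add_assoc]
    congr 1
    rw [cnt_split N _ (fun x y a b => x * a = n), add_comm]
    congr 1
    · rw [swap N (fun x y a b => (x < a ∧ y < b) ∧ x * a < n)]
      exact cnt_congr fun x y a b _ _ _ _ _ => by omega
    · exact cnt_congr fun x y a b _ _ _ _ _ => by omega
  -- the middle
  have h2 : ∃ δ, n.divisors.card = 2 * δ ∧
      cnt N (fun x y a b => (x < a ∧ y < b) ∧ x * a = n) = δ * δ := by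
    refine ⟨(n.divisors.filter fun d => d * d < n).card, ?_, ?_⟩
    · have h3 := card_filter_add_card_filter_not (s := n.divisors) (fun d => d * d < n)
      have h4 : (n.divisors.filter fun d => ¬ d * d < n).card =
          (n.divisors.filter fun d => d * d < n).card := by
        refine card_nbij' (fun d => n / d) (fun d => n / d) ?_ ?_ ?_ ?_
        · intro d hd
          rw [mem_coe, mem_filter, Nat.mem_divisors] at hd ⊢
          obtain ⟨⟨⟨s, hs⟩, h5⟩, h6⟩ := hd
          have hd0 : 0 < d := Nat.pos_of_ne_zero (by rintro rfl; simp at hs; omega)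
          have hs0 : 0 < s := Nat.pos_of_ne_zero (by rintro rfl; simp at hs; omega)
          have hds : n / d = s := by rw [hs, Nat.mul_div_cancel_left _ hd0]
          simp only [hds]
          refine ⟨⟨⟨d, by rw [hs]; ring⟩, h5⟩, ?_⟩
          have h7 : s ≤ d := by
            by_contra h8
            exact h6 (by rw [hs]; exact (Nat.mul_lt_mul_left hd0).2 (by omega))
          rcases lt_or_eq_of_le h7 with h8 | h8
          · rw [hs]; exact Nat.mul_lt_mul_of_pos_right h8 hs0
          · exfalso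
            subst h8
            exact hN s s hd0 hd0 (by rw [hN2, hs]; ring)
        · intro d hd
          rw [mem_coe, mem_filter, Nat.mem_divisors] at hd ⊢
          obtain ⟨⟨⟨s, hs⟩, h5⟩, h6⟩ := hd
          have hd0 : 0 < d := Nat.pos_of_ne_zero (by rintro rfl; simp at hs; omega)
          have hs0 : 0 < s := Nat.pos_of_ne_zero (by rintro rfl; simp at hs; omega)
          have hds : n / d = s := by rw [hs, Nat.mul_div_cancel_left _ hd0]
          simp only [hds]
          refine ⟨⟨⟨d, by rw [hs]; ring⟩, h5⟩, ?_⟩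
          have h7 : d < s := by rw [hs] at h6; exact Nat.lt_of_mul_lt_mul_left h6
          rw [not_lt, hs]
          exact Nat.mul_le_mul_right s h7.le
        · intro d hd
          rw [mem_coe, mem_filter, Nat.mem_divisors] at hd
          exact Nat.div_div_self hd.1.1 hd.1.2
        · intro d hd
          rw [mem_coe, mem_filter, Nat.mem_divisors] at hd
          exact Nat.div_div_self hd.1.1 hd.1.2
      omega
    · rw [← card_product]
      refine cnt_eq_card _ (fun q => (q.1, q.2.1)) (fun s => (s.1, s.2, n / s.1, n / s.2)) ?_ ?_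
      · rintro x y a b hx hy ha hb e ⟨⟨h5, h6⟩, h7⟩
        have h8 : y * b = n := by omega
        have e1 : n / x = a := by rw [← h7, Nat.mul_div_cancel_left _ hx]
        have e2 : n / y = b := by rw [← h8, Nat.mul_div_cancel_left _ hy]
        rw [mem_product, mem_filter, mem_filter, Nat.mem_divisors, Nat.mem_divisors]
        refine ⟨⟨⟨⟨⟨a, h7.symm⟩, by omega⟩, ?_⟩, ⟨⟨b, h8.symm⟩, by omega⟩, ?_⟩, ?_⟩
        · have := (Nat.mul_lt_mul_left hx).2 h5; simp only; omega
        · have := (Nat.mul_lt_mul_left hy).2 h6; simp only; omega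
        · simp only [e1, e2]
      · rintro ⟨x, y⟩ hq
        rw [mem_product, mem_filter, mem_filter, Nat.mem_divisors, Nat.mem_divisors] at hq
        obtain ⟨⟨⟨⟨a, ha⟩, h5⟩, h6⟩, ⟨⟨b, hb⟩, h7⟩, h8⟩ := hq
        simp only at ha hb h6 h8
        have hx : 0 < x := Nat.pos_of_ne_zero (by rintro rfl; simp at ha; omega)
        have hy : 0 < y := Nat.pos_of_ne_zero (by rintro rfl; simp at hb; omega)
        have e1 : n / x = a := by rw [ha, Nat.mul_div_cancel_left _ hx]
        have e2 : n / y = b := by rw [hb, Nat.mul_div_cancel_left _ hy]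
        simp only [e1, e2]
        have h9 : x < a := by
          rw [ha] at h6; exact Nat.lt_of_mul_lt_mul_left h6
        have h10 : y < b := by
          rw [hb] at h8; exact Nat.lt_of_mul_lt_mul_left h8
        refine ⟨⟨⟨hx, hy, ?_, ?_, ?_⟩, ⟨h9, h10⟩, ha.symm⟩, trivial⟩
        · simp only; omega
        · simp only; omega
        · simp only; omega
  -- `W`
  have h3 : W N = 2 * cnt N (fun x y a b => x = a ∧ y < b) := by
    rw [W, cnt_split N _ (fun x y a b => y < b), two_mul]
    congr 1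
    rw [d2 N (fun x y a b => x = a ∧ y < b)]
    refine cnt_congr fun x y a b hx hy ha hb e => ?_
    constructor
    · rintro ⟨h2, h3⟩
      refine ⟨h2, ?_⟩
      rcases lt_or_eq_of_le (not_lt.1 h3) with h | h
      · exact h
      · exfalso
        subst h2; subst h
        exact hN x b hx hy e
    · rintro ⟨h1, h2⟩; omega
  -- total
  have h4 : cnt N (fun x y a b => True) = 2 * nu N +
      cnt N (fun x y _ _ => x = y) := by
    rw [cnt_split N _ (fun x y a b => y < x), two_mul, add_assoc, nu]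
    congr 1
    · exact cnt_congr fun x y a b _ _ _ _ _ => by simp
    rw [cnt_split N _ (fun x y a b => x < y)]
    congr 1
    · rw [swap N (fun x y a b => y < x)]
      exact cnt_congr fun x y a b _ _ _ _ _ => by simp only [true_and]; omega
    · exact cnt_congr fun x y a b _ _ _ _ _ => by simp only [true_and]; omega
  obtain ⟨t, ht⟩ := h1
  obtain ⟨δ, hδ1, hδ2⟩ := h2
  obtain ⟨s, hs⟩ : ∃ s, δ * δ + δ = 2 * s := by
    obtain ⟨s, hs⟩ := Nat.even_mul_succ_self δ
    exact ⟨s, by rw [← two_mul] at hs; rw [← hs]; ring⟩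
  refine ⟨t + s, ?_⟩
  omega

end Q279.CD
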