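import Pool.Agent.Q279.CD.Sig

/-!
# The number of representations `u² + y b = N` modulo 4
-/

set_option autoImplicit false

namespace Q279.CD

open Finset

/-- representations `2 x² + y² = n` -/
noncomputable def R (n : ℕ) : ℕ := cnt n (fun x y a b => a = 2 * x ∧ y = b)

lemma K_par {n : ℕ} (hn : n % 2 = 1) : K n % 2 = R n % 2 := by
  rw [K, cnt_par (fun q => (q.1, q.2.2.2, q.2.2.1, q.2.1))]
  · have h1 : cnt n (fun x y a b => (a % 2 = 0 ∧ b % 2 = 1) ∧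
        ((x, y, a, b).1, (x, y, a, b).2.2.2, (x, y, a, b).2.2.1, (x, y, a, b).2.1) =
          (x, y, a, b)) = cnt n (fun x y a b => a % 2 = 0 ∧ y = b) := by
      refine cnt_congr fun x y a b _ _ _ _ e => ?_
      have h4 := odd_of e
      simp only [Prod.mk.injEq, true_and]
      constructor
      · rintro ⟨h1, h2, h3⟩; omega
      · rintro ⟨h1, rfl⟩
        refine ⟨⟨h1, ?_⟩, rfl, rfl⟩
        rw [h1] at h4
        rcases mod2_cases y with h5 | h5
        · rw [h5] at h4; omega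
        · exact h5
    rw [h1, cnt_par (fun q => (q.2.2.1 / 2, q.2.1, 2 * q.1, q.2.2.2))]
    · rw [R]
      congr 1
      refine cnt_congr fun x y a b _ _ _ _ e => ?_
      simp only [Prod.mk.injEq, true_and, and_true]
      omega
    · rintro x y a b hx hy ha hb e ⟨h1, h2⟩
      obtain ⟨s, rfl⟩ : ∃ t, a = 2 * t := ⟨a / 2, by omega⟩
      simp only [show 2 * s / 2 = s by omega, show 2 * x / 2 = x by omega]
      refine ⟨⟨⟨?_, hy, ?_, hb, ?_⟩, ?_, h2⟩, trivial⟩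
      · simp only; omega
      · simp only; omega
      · simp only; rw [← e]; ring
      · simp only; omega
  · rintro x y a b hx hy ha hb e ⟨h1, h2⟩
    have h4 := odd_of e
    refine ⟨⟨⟨hx, hb, ha, hy, ?_⟩, h1, ?_⟩, rfl⟩
    · simp only; rw [← e]; ring
    · simp only
      rw [h1, h2] at h4
      rcases mod2_cases y with h5 | h5
      · rw [h5] at h4; omega
      · exact h5

/-- `2 x² + y b = n` -/
noncomputable def V (n : ℕ) : ℕ := cnt n (fun x _ a _ => 2 * x = a)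

lemma V_par (n : ℕ) : V n % 2 = R n % 2 := by
  rw [V, cnt_par (fun q => (q.1, q.2.2.2, q.2.2.1, q.2.1))]
  · rw [R]
    congr 1
    refine cnt_congr fun x y a b _ _ _ _ e => ?_
    simp only [Prod.mk.injEq, true_and]
    omega
  · rintro x y a b hx hy ha hb e h
    refine ⟨⟨⟨hx, hb, ha, hy, ?_⟩, h⟩, rfl⟩
    simp only; rw [← e]; ring

lemma mod4 {x y b n : ℕ} (hn : n % 2 = 1) (e : x * x + y * b = 2 * n) :
    (x % 2 = 0 → (y % 2 = 0 ∧ b % 2 = 1) ∨ (y % 2 = 1 ∧ b % 2 = 0)) ∧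
    (x % 2 = 1 → y % 2 = 1 ∧ b % 2 = 1 ∧ y % 4 = b % 4) := by
  have h1 := Nat.mul_mod x x 4
  have h2 := Nat.mul_mod y b 4
  have h3 : (x * x % 4 + y * b % 4) % 4 = 2 := by omega
  have hx : x % 4 = 0 ∨ x % 4 = 1 ∨ x % 4 = 2 ∨ x % 4 = 3 := by omega
  have hy : y % 4 = 0 ∨ y % 4 = 1 ∨ y % 4 = 2 ∨ y % 4 = 3 := by omega
  have hb : b % 4 = 0 ∨ b % 4 = 1 ∨ b % 4 = 2 ∨ b % 4 = 3 := by omega
  rcases hx with hx | hx | hx | hx <;> rw [hx] at h1 <;>
  rcases hy with hy | hy | hy | hy <;> rw [hy] at h2 <;>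
  rcases hb with hb | hb | hb | hb <;> rw [hb] at h2 <;> norm_num at h1 h2 <;> omega

lemma W_even {n : ℕ} (hn : n % 2 = 1) :
    cnt (2 * n) (fun x _ a _ => x = a ∧ x % 2 = 0) = 2 * V n := by
  have h1 : cnt (2 * n) (fun x y a b => (x = a ∧ x % 2 = 0) ∧ y % 2 = 0) = V n := by
    have h := half n (fun x y a b => x = a)
    rw [V, ← h]
    exact cnt_congr fun x y a b _ _ _ _ _ => by omega
  have h2 : cnt (2 * n) (fun x y a b => (x = a ∧ x % 2 = 0) ∧ ¬ y % 2 = 0) = V n := by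
    rw [← h1, d2 (2 * n) (fun x y a b => (x = a ∧ x % 2 = 0) ∧ y % 2 = 0)]
    refine cnt_congr fun x y a b _ _ _ _ e => ?_
    constructor
    · rintro ⟨⟨rfl, h1⟩, h2⟩
      refine ⟨⟨rfl, h1⟩, ?_⟩
      have := (mod4 hn e).1 h1
      omega
    · rintro ⟨⟨rfl, h1⟩, h2⟩
      refine ⟨⟨rfl, h1⟩, ?_⟩
      have := (mod4 hn e).1 h1
      omega
  rw [cnt_split (2 * n) _ (fun x y a b => y % 2 = 0), h1, h2]; ring

/-- half of the odd part of `W` -/
noncomputable def Y (n : ℕ) : ℕ := cnt (2 * n) (fun x y a b => x = a ∧ x % 2 = 1 ∧ y < b)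

lemma W_odd {n : ℕ} (hN : ∀ u v, 0 < u → 0 < v → u * u + v * v ≠ 2 * n) :
    cnt (2 * n) (fun x _ a _ => x = a ∧ ¬ x % 2 = 0) = 2 * Y n := by
  have h1 : cnt (2 * n) (fun x y a b => (x = a ∧ ¬ x % 2 = 0) ∧ y < b) = Y n := by
    rw [Y]
    exact cnt_congr fun x y a b _ _ _ _ _ => by omega
  have h2 : cnt (2 * n) (fun x y a b => (x = a ∧ ¬ x % 2 = 0) ∧ ¬ y < b) = Y n := by
    rw [Y, d2 (2 * n) (fun x y a b => x = a ∧ x % 2 = 1 ∧ y < b)]
    refine cnt_congr fun x y a b hx hy ha hb e => ?_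
    constructor
    · rintro ⟨⟨h2, h3⟩, h4⟩
      refine ⟨h2, by omega, ?_⟩
      rcases lt_or_eq_of_le (not_lt.1 h4) with h | h
      · exact h
      · exfalso
        subst h2; subst h
        exact hN x b hx hy e
    · rintro ⟨h1, h2, h3⟩; omega
  rw [cnt_split (2 * n) _ (fun x y a b => y < b), h1, h2]; ring

/-- Zagier's set: `u² + x² + 4 y z = N` -/
def Z (N : ℕ) : Finset (ℕ × ℕ × ℕ × ℕ) :=
  (range (N + 1) ×ˢ range (N + 1) ×ˢ range (N + 1) ×ˢ range (N + 1)).filter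
    fun q => 0 < q.1 ∧ 0 < q.2.1 ∧ 0 < q.2.2.1 ∧ 0 < q.2.2.2 ∧ q.1 % 2 = 1 ∧ q.2.1 % 2 = 1 ∧
      q.1 * q.1 + q.2.1 * q.2.1 + 4 * (q.2.2.1 * q.2.2.2) = N

lemma mem_Z {N u x y z : ℕ} :
    (u, x, y, z) ∈ Z N ↔ 0 < u ∧ 0 < x ∧ 0 < y ∧ 0 < z ∧ u % 2 = 1 ∧ x % 2 = 1 ∧
      u * u + x * x + 4 * (y * z) = N := by
  unfold Z
  simp only [mem_filter, mem_product, mem_range]
  constructor
  · rintro ⟨_, h⟩; exact h
  · rintro ⟨hx, hy, ha, hb, h1, h2, h⟩
    refine ⟨⟨?_, ?_, ?_, ?_⟩, hx, hy, ha, hb, h1, h2, h⟩ <;> nlinarith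

/-- Zagier's map -/
def zag (q : ℕ × ℕ × ℕ × ℕ) : ℕ × ℕ × ℕ × ℕ :=
  if q.2.1 + q.2.2.2 < q.2.2.1 then
    (q.1, q.2.1 + 2 * q.2.2.2, q.2.2.2, q.2.2.1 - q.2.1 - q.2.2.2)
  else if q.2.1 < 2 * q.2.2.1 then
    (q.1, 2 * q.2.2.1 - q.2.1, q.2.2.1, q.2.1 + q.2.2.2 - q.2.2.1)
  else (q.1, q.2.1 - 2 * q.2.2.1, q.2.1 + q.2.2.2 - q.2.2.1, q.2.2.1)

lemma zag1 {u x y z : ℕ} (h : x + z < y) : zag (u, x, y, z) = (u, x + 2 * z, z, y - x - z) := by
  unfold zag; rw [if_pos h]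

lemma zag2 {u x y z : ℕ} (h : ¬ x + z < y) (h' : x < 2 * y) :
    zag (u, x, y, z) = (u, 2 * y - x, y, x + z - y) := by
  unfold zag; rw [if_neg h, if_pos h']

lemma zag3 {u x y z : ℕ} (h : ¬ x + z < y) (h' : ¬ x < 2 * y) :
    zag (u, x, y, z) = (u, x - 2 * y, x + z - y, y) := by
  unfold zag; rw [if_neg h, if_neg h']

lemma zag_spec {N : ℕ} (hN : ∀ u v, 0 < u → 0 < v → u * u + v * v ≠ N) (q : ℕ × ℕ × ℕ × ℕ)
    (hq : q ∈ Z N) : zag q ∈ Z N ∧ zag (zag q) = q ∧ (zag q = q ↔ q.2.1 = q.2.2.1) := by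
  obtain ⟨u, x, y, z⟩ := q
  rw [mem_Z] at hq
  obtain ⟨hu, hx, hy, hz, h1, h2, e⟩ := hq
  by_cases c1 : x + z < y
  · obtain ⟨t, rfl⟩ := Nat.exists_eq_add_of_lt c1
    rw [zag1 c1, show x + z + t + 1 - x - z = t + 1 by omega,
      zag3 (show ¬ x + 2 * z + (t + 1) < z by omega) (show ¬ x + 2 * z < 2 * z by omega), mem_Z]
    refine ⟨⟨hu, by omega, hz, by omega, h1, by omega, ?_⟩, ?_, ?_⟩
    · rw [← e]; ring
    · simp only [Prod.mk.injEq, true_and, and_true]; omega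
    · simp only [Prod.mk.injEq, true_and]; omega
  · have c0 : x + z ≠ y := by
      intro c
      apply hN u (y + z) hu (by omega)
      rw [← e, ← c]; ring
    by_cases c2 : x < 2 * y
    · obtain ⟨t, ht⟩ : ∃ t, x + z = y + t + 1 := ⟨x + z - y - 1, by omega⟩
      obtain ⟨s, hs⟩ : ∃ s, 2 * y = x + s + 1 := ⟨2 * y - x - 1, by omega⟩
      rw [zag2 c1 c2, show x + z - y = t + 1 by omega, show 2 * y - x = s + 1 by omega,
        zag2 (by omega) (by omega), mem_Z]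
      refine ⟨⟨hu, by omega, hy, by omega, h1, by omega, ?_⟩, ?_, ?_⟩
      · rw [← e]
        zify at ht hs ⊢
        have h3 : (t : ℤ) = x + z - y - 1 := by linarith
        have h4 : (s : ℤ) = 2 * y - x - 1 := by linarith
        rw [h3, h4]; ring
      · simp only [Prod.mk.injEq, true_and]; omega
      · simp only [Prod.mk.injEq, true_and]; omega
    · have c3 : x ≠ 2 * y := by omega
      obtain ⟨s, rfl⟩ : ∃ s, x = 2 * y + s + 1 := ⟨x - 2 * y - 1, by omega⟩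
      rw [zag3 c1 c2, show 2 * y + s + 1 - 2 * y = s + 1 by omega,
        show 2 * y + s + 1 + z - y = y + s + 1 + z by omega, zag1 (by omega), mem_Z]
      refine ⟨⟨hu, by omega, by omega, hy, h1, by omega, ?_⟩, ?_, ?_⟩
      · rw [← e]; ring
      · simp only [Prod.mk.injEq, true_and]; omega
      · simp only [Prod.mk.injEq, true_and]; omega

lemma Y_par {n : ℕ} (hn : n % 2 = 1) (hN : ∀ u v, 0 < u → 0 < v → u * u + v * v ≠ 2 * n) :
    Y n % 2 = R n % 2 := by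
  have h1 : (Z (2 * n)).card % 2 = Y n % 2 := by
    rw [par (Z (2 * n)) zag (fun q hq => (zag_spec hN q hq).1)
      (fun q hq => (zag_spec hN q hq).2.1), Y]
    congr 1
    symm
    refine cnt_eq_card _ (fun q => (q.1, q.2.1, q.2.1, (q.2.2.2 - q.2.1) / 4))
      (fun q => (q.1, q.2.1, q.1, q.2.1 + 4 * q.2.2.2)) ?_ ?_
    · rintro x y a b hx hy ha hb e ⟨rfl, h2, h3⟩
      have h4 := (mod4 hn e).2 h2
      obtain ⟨t, ht⟩ : ∃ t, b = y + 4 * t := ⟨(b - y) / 4, by omega⟩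
      have ht0 : 0 < t := by omega
      subst ht
      simp only [show (y + 4 * t - y) / 4 = t by omega]
      have hm : (x, y, y, t) ∈ Z (2 * n) := by
        rw [mem_Z]
        exact ⟨hx, hy, hy, ht0, h2, h4.1, by rw [← e]; ring⟩
      refine ⟨?_, trivial⟩
      rw [mem_filter]
      exact ⟨hm, (zag_spec hN _ hm).2.2.2 rfl⟩
    · rintro ⟨u, x, y, z⟩ hq
      rw [mem_filter] at hq
      obtain ⟨hq, h2⟩ := hq
      have h3 := (zag_spec hN _ hq).2.2.1 h2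
      simp only at h3
      subst h3
      rw [mem_Z] at hq
      obtain ⟨hu, hx, hy, hz, h4, h5, e⟩ := hq
      simp only [show (x + 4 * z - x) / 4 = z by omega]
      refine ⟨⟨⟨hu, hx, hu, ?_, ?_⟩, rfl, h4, ?_⟩, trivial⟩
      · simp only; omega
      · simp only; rw [← e]; ring
      · simp only; omega
  have h2 : (Z (2 * n)).card % 2 = ((Z (2 * n)).filter fun q => q.2.2.1 = q.2.2.2).card % 2 := by
    rw [par (Z (2 * n)) (fun q => (q.1, q.2.1, q.2.2.2, q.2.2.1))]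
    · congr 2
      refine filter_congr ?_
      rintro ⟨u, x, y, z⟩ _
      simp only [Prod.mk.injEq, true_and]; omega
    · rintro ⟨u, x, y, z⟩ hq
      rw [mem_Z] at hq ⊢
      obtain ⟨hu, hx, hy, hz, h4, h5, e⟩ := hq
      exact ⟨hu, hx, hz, hy, h4, h5, by rw [← e]; ring⟩
    · rintro ⟨u, x, y, z⟩ _; rfl
  have h3 : ((Z (2 * n)).filter fun q => q.2.2.1 = q.2.2.2).card % 2 = R n % 2 := by
    rw [par _ (fun q => (q.2.1, q.1, q.2.2.1, q.2.2.2)), R]
    · congr 1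
      symm
      refine cnt_eq_card _ (fun q => (q.2.1, q.2.1, q.1, q.1))
        (fun q => (q.2.2.1, q.1, 2 * q.2.2.1, q.1)) ?_ ?_
      · rintro x y a b hx hy ha hb e ⟨rfl, rfl⟩
        have h4 := odd_of e
        have h5 : y % 2 = 1 := by
          rcases mod2_cases y with h5 | h5
          · rw [h5] at h4; simp at h4; omega
          · exact h5
        refine ⟨?_, rfl⟩
        rw [mem_filter, mem_filter, mem_Z]
        refine ⟨⟨⟨hy, hy, hx, hx, h5, h5, ?_⟩, rfl⟩, rfl⟩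
        rw [← e]; ring
      · rintro ⟨u, x, y, z⟩ hq
        rw [mem_filter, mem_filter, mem_Z] at hq
        obtain ⟨⟨⟨hu, hx, hy, hz, h4, h5, e⟩, h6⟩, h7⟩ := hq
        simp only [Prod.mk.injEq, and_true] at h6 h7
        obtain ⟨h7, h8⟩ := h7
        subst h6; subst h7
        refine ⟨⟨⟨hy, hu, ?_, hu, ?_⟩, rfl, rfl⟩, rfl⟩
        · simp only; omega
        · simp only
          have : 2 * (y * (2 * y) + x * x) = 2 * n := by rw [← e]; ring
          omega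
    · rintro ⟨u, x, y, z⟩ hq
      rw [mem_filter, mem_Z] at hq ⊢
      obtain ⟨⟨hu, hx, hy, hz, h4, h5, e⟩, h6⟩ := hq
      exact ⟨⟨hx, hu, hy, hz, h5, h4, by rw [← e]; ring⟩, h6⟩
    · rintro ⟨u, x, y, z⟩ _; rfl
  omega

/-- everything together -/
theorem main {n : ℕ} (hn : n % 2 = 1) (hN : ∀ u v, 0 < u → 0 < v → u * u + v * v ≠ 2 * n)
    (hR : R n % 2 = 0) (hs : sg n % 8 = 0) :
    nu (2 * n) % 4 = 0 ∧ cnt (2 * n) (fun x y _ b => y < x ∧ (x + y + b) % 2 = 1) % 4 = 0 ∧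
      (n.divisors.card % 4 = 0 →
        cnt (2 * n) (fun x y a b => y < x ∧ (x + a + b) % 2 = 1) % 4 = 0) := by
  have h1 := K_par hn
  obtain ⟨t, h2⟩ := G2_eq hn hN
  obtain ⟨s, h3⟩ := nu_eq hn hN
  have h4 : W (2 * n) = 2 * V n + 2 * Y n := by
    rw [W, cnt_split (2 * n) _ (fun x y a b => x % 2 = 0), W_even hn, W_odd hN]
  have h5 := V_par n
  have h6 := Y_par hn hN
  have h7 := rk2_formula hn
  have h8 := rk_formula n
  have h9 := K0_eq hn
  refine ⟨by omega, by omega, fun h10 => by omega⟩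

end Q279.CD
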